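import Mathlib
import Pool.Agent.TH35.MG.Fin

set_option autoImplicit false

/-! The handle relations for inner automorphisms of a free group. -/

namespace Pool.Agent.TH35.CH

open Pool.Agent.H798R3.MG Pool.Agent.H29R2.MG Pool.Agent.TH35.MG

section
variable {α β : Type*}

/-- an endomorphism of a free group, extended to a bigger free group -/
def extE (f : FreeGroup α →* FreeGroup α) : FreeGroup (α ⊕ β) →* FreeGroup (α ⊕ β) :=
  FreeGroup.lift (Sum.elim (fun a => FreeGroup.map Sum.inl (f (FreeGroup.of a)))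
    (fun b => FreeGroup.of (Sum.inr b)))

theorem extE_inl (f : FreeGroup α →* FreeGroup α) (x : FreeGroup α) :
    extE (β := β) f (FreeGroup.map Sum.inl x) = FreeGroup.map Sum.inl (f x) := by
  have h : (extE (β := β) f).comp (FreeGroup.map Sum.inl) = (FreeGroup.map Sum.inl).comp f := by
    apply FreeGroup.ext_hom
    intro a
    simp [extE]
  exact DFunLike.congr_fun h x

theorem extE_inr (f : FreeGroup α →* FreeGroup α) (b : β) :
    extE f (FreeGroup.of (Sum.inr b)) = FreeGroup.of (Sum.inr b) := by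
  simp [extE]

theorem extE_of_inl (f : FreeGroup α →* FreeGroup α) (a : α) :
    extE (β := β) f (FreeGroup.of (Sum.inl a)) = FreeGroup.map Sum.inl (f (FreeGroup.of a)) := by
  simp [extE]

theorem extE_comp (f h : FreeGroup α →* FreeGroup α) :
    (extE (β := β) f).comp (extE h) = extE (f.comp h) := by
  apply FreeGroup.ext_hom
  rintro (a | b)
  · rw [MonoidHom.comp_apply, extE_of_inl, extE_inl, extE_of_inl]
    rfl
  · rw [MonoidHom.comp_apply, extE_inr, extE_inr, extE_inr]

theorem extE_id : extE (β := β) (MonoidHom.id (FreeGroup α)) = MonoidHom.id _ := by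
  apply FreeGroup.ext_hom
  rintro (a | b)
  · rw [extE_of_inl]
    simp
  · rw [extE_inr]
    rfl

/-- automorphisms extended to a bigger free group -/
def ext : MulAut (FreeGroup α) →* MulAut (FreeGroup (α ⊕ β)) where
  toFun φ := MonoidHom.toMulEquiv (extE φ.toMonoidHom) (extE (φ⁻¹).toMonoidHom)
    (by
      rw [extE_comp, ← extE_id]
      congr 1
      ext x
      exact MulAut.inv_apply_self _ φ _)
    (by
      rw [extE_comp, ← extE_id]
      congr 1
      ext x
      exact MulAut.apply_inv_self _ φ _)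
  map_one' := by
    apply MulEquiv.ext
    intro x
    exact DFunLike.congr_fun extE_id x
  map_mul' φ ψ := by
    apply MulEquiv.ext
    intro x
    exact (DFunLike.congr_fun (extE_comp (β := β) φ.toMonoidHom ψ.toMonoidHom) x).symm

theorem ext_inl (φ : MulAut (FreeGroup α)) (x : FreeGroup α) :
    ext (β := β) φ (FreeGroup.map Sum.inl x) = FreeGroup.map Sum.inl (φ x) :=
  extE_inl φ.toMonoidHom x

theorem ext_inr (φ : MulAut (FreeGroup α)) (b : β) :
    ext φ (FreeGroup.of (Sum.inr b)) = FreeGroup.of (Sum.inr b) :=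
  extE_inr φ.toMonoidHom b

end

section
variable {F : Type*} [Group F]

theorem conj_aut (φ : MulAut F) (x : F) :
    φ * MulAut.conj x * φ⁻¹ = MulAut.conj (φ x) := by
  apply MulEquiv.ext
  intro z
  rw [MulAut.mul_apply, MulAut.mul_apply, MulAut.conj_apply, MulAut.conj_apply, map_mul, map_mul,
    map_inv, MulAut.apply_inv_self]

theorem comm_fix {φ : MulAut F} {x : F} (h : φ x = x) : Commute φ (MulAut.conj x) := by
  have h1 := conj_aut φ x
  rw [h] at h1
  calc φ * MulAut.conj x = (φ * MulAut.conj x * φ⁻¹) * φ := by group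
    _ = MulAut.conj x * φ := by rw [h1]

theorem push_eq {φ : MulAut F} {x y : F} (h : φ x = y) :
    φ * MulAut.conj x = MulAut.conj y * φ := by
  calc φ * MulAut.conj x = (φ * MulAut.conj x * φ⁻¹) * φ := by group
    _ = MulAut.conj y * φ := by rw [conj_aut, h]

/-- the handle relations for inner automorphisms -/
theorem swap {N : ℕ} {A B T al0 be0 : ℕ → MulAut F} {tau0 : MulAut F}
    (r : HRel N A B al0 be0 T tau0) (a b : ℕ → F)
    (Aa : ∀ i < N, ∀ j < N, A i (a j) = a j)
    (Ab : ∀ i < N, ∀ j < N, i ≠ j → A i (b j) = b j)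
    (Ab' : ∀ i < N, A i (b i) = b i * a i)
    (Bb : ∀ i < N, ∀ j < N, B i (b j) = b j)
    (Ba : ∀ i < N, ∀ j < N, i ≠ j → B i (a j) = a j)
    (Ba' : ∀ i < N, B i (a i) = a i * (b i)⁻¹)
    (Ta : ∀ i, i + 1 < N → ∀ m < N, m ≠ i → m ≠ i + 1 → T i (a m) = a m)
    (Tb : ∀ i, i + 1 < N → ∀ m < N, m ≠ i → m ≠ i + 1 → T i (b m) = b m)
    (Tai : ∀ i, i + 1 < N → T i (a i) =
      (UU (dl a b i) (a i) (a (i + 1)))⁻¹ * a i * UU (dl a b i) (a i) (a (i + 1)))
    (Tbi : ∀ i, i + 1 < N → T i (b i) = b i * UU (dl a b i) (a i) (a (i + 1)))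
    (Taj : ∀ i, i + 1 < N → T i (a (i + 1)) =
      (WW (dl a b i) (a i) (a (i + 1)))⁻¹ * a (i + 1) * WW (dl a b i) (a i) (a (i + 1)))
    (Tbj : ∀ i, i + 1 < N → T i (b (i + 1)) = b (i + 1) * WW (dl a b i) (a i) (a (i + 1)))
    (Sa : ∀ i, i + 1 < N → Ss A B T i (a i) = a (i + 1))
    (Sb : ∀ i, i + 1 < N → Ss A B T i (b i) = b (i + 1)) :
    HRel N A B (fun i => MulAut.conj (a i)) (fun i => MulAut.conj (b i)) T 1 :=
  { r with
    commAal := fun i hi j hj => comm_fix (Aa i hi j hj)
    commAbe := fun i hi j hj hij => comm_fix (Ab i hi j hj hij)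
    commBal := fun i hi j hj hij => comm_fix (Ba i hi j hj hij)
    commBbe := fun i hi j hj => comm_fix (Bb i hi j hj)
    A_be := fun i hi => by rw [conj_aut, Ab' i hi, map_mul]
    B_al := fun i hi => by rw [conj_aut, Ba' i hi, map_mul, map_inv]
    commTal := fun i hi m hm h1 h2 => comm_fix (Ta i hi m hm h1 h2)
    commTbe := fun i hi m hm h1 h2 => comm_fix (Tb i hi m hm h1 h2)
    T_al_i := fun i hi => by
      rw [conj_aut, Tai i hi]
      simp only [UU, dl, map_mul, map_inv]
    T_be_i := fun i hi => by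
      rw [conj_aut, Tbi i hi, mul_one]
      simp only [UU, dl, map_mul, map_inv]
    T_al_j := fun i hi => by
      rw [conj_aut, Taj i hi]
      simp only [WW, dl, map_mul, map_inv]
    T_be_j := fun i hi => by
      rw [conj_aut, Tbj i hi, mul_one]
      simp only [WW, dl, map_mul, map_inv]
    sal := fun i hi => push_eq (Sa i hi)
    sbe := fun i hi => push_eq (Sb i hi)
    tauA := fun _ _ => Commute.one_left _
    tauB := fun _ _ => Commute.one_left _
    tauAl := fun _ _ => Commute.one_left _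
    tauBe := fun _ _ => Commute.one_left _
    tauT := fun _ _ => Commute.one_left _ }

end

section
variable {g N n : ℕ}

theorem ends_ha (f h : ℕ → FG g → FG g) {m : ℕ} (hm : m < g) :
    ends g f h (ha g m) = f m (ha g m) := by
  unfold ends ha
  rw [dif_pos hm]
  unfold fa
  rw [FreeGroup.lift_apply_of]
  rfl

theorem ends_hb (f h : ℕ → FG g → FG g) {m : ℕ} (hm : m < g) :
    ends g f h (hb g m) = h m (hb g m) := by
  unfold ends hb
  rw [dif_pos hm]
  unfold fb
  rw [FreeGroup.lift_apply_of]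
  rfl

theorem vA (H : WHyp) (c : Ctx g N n) {i : ℕ} (hi : i < N) (z : FG g) :
    ((sA g i : orSub g) : MulAut (FG g)) z = hA g i z :=
  mkS_apply ((H.k g N n c.h2 c.hN c.hg).1 i hi).1 z

theorem vB (H : WHyp) (c : Ctx g N n) {i : ℕ} (hi : i < N) (z : FG g) :
    ((sB g i : orSub g) : MulAut (FG g)) z = hB g i z :=
  mkS_apply ((H.k g N n c.h2 c.hN c.hg).1 i hi).2.1 z

theorem vT (H : WHyp) (c : Ctx g N n) {i : ℕ} (hi : i + 1 < N) (z : FG g) :
    ((sT g i (i + 1) : orSub g) : MulAut (FG g)) z = hT g i (i + 1) z :=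
  mkS_apply ((H.k g N n c.h2 c.hN c.hg).2.2 i (i + 1) (by omega) (by omega) hi) z

theorem vS_aux (c : Ctx g N n) {i : ℕ} (hj : i + 1 < N) {x : orSub g} {P : WD × WD}
    (hP : RR g n i (i + 1) (i + 2) (i + 3) x P) (e1 : P.1.a0 = [(2, true)])
    (e2 : P.1.b0 = [(3, true)]) :
    (x : MulAut (FG g)) (ha g i) = ha g (i + 1) ∧
    (x : MulAut (FG g)) (hb g i) = hb g (i + 1) := by
  have c2 := c.h2
  have c3 := c.hN
  have c4 := c.hg
  constructor
  · rw [hP.1]
    unfold wext
    rw [ends_ha _ _ (by omega : i < g)]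
    simp [e1, wev, wsig]
  · rw [hP.1]
    unfold wext
    rw [ends_hb _ _ (by omega : i < g)]
    simp [e2, wev, wsig]

/-- the exchange of handles -/
theorem vS (H : WHyp) (c : Ctx g N n) {i : ℕ} (hj : i + 1 < N) :
    ((Sw (sA g i) (sB g i) (sT g i (i + 1)) (sB g (i + 1)) (sA g (i + 1)) : orSub g) :
      MulAut (FG g)) (ha g i) = ha g (i + 1) ∧
    ((Sw (sA g i) (sB g i) (sT g i (i + 1)) (sB g (i + 1)) (sA g (i + 1)) : orSub g) :
      MulAut (FG g)) (hb g i) = hb g (i + 1) := by
  have c2 := c.h2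
  have c3 := c.hN
  have c4 := c.hg
  have hw : Win g n i (i + 1) (i + 2) (i + 3) :=
    ⟨by omega, by omega, by omega, by omega, c.hg⟩
  have hi : i < N := by omega
  have a := RR_A H c hw 0 hi
  have b := RR_B H c hw 0 hi
  have a' := RR_A H c hw 1 hj
  have b' := RR_B H c hw 1 hj
  have T := RR_T01 H c hw rfl hj
  simp only [Matrix.cons_val_one, Matrix.cons_val_zero] at a b a' b'
  have h2 := RR.mul H hw a b
  have h3 := RR.mul H hw h2 T
  have h4 := RR.mul H hw h3 b'
  have h5 := RR.mul H hw h4 a'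
  have h9 := RR.mul H hw (RR.mul H hw (RR.mul H hw (RR.mul H hw h5 h4) h3) h2) a
  exact vS_aux c hj h9 (by decide +kernel) (by decide +kernel)

end

end Pool.Agent.TH35.CH
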