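import Mathlib
import Pool.Agent.TH35.MG.Sl

set_option autoImplicit false

/-! The slot argument with additional elements. -/

namespace Pool.Agent.TH35.CH

open Pool.Agent.H798R3.MG Pool.Agent.H798R3.MG.T2b Module Pool.Agent.TH35.MG

/-- the slot argument, for additional elements `J` supported near the first handle -/
theorem slot_J {K V G : Type*} [Field K] [AddCommGroup V] [Module K V] [FiniteDimensional K V]
    [Group G] [Nontrivial V] (ρ : G →* Module.End K V) {N : ℕ} {A B al be T : ℕ → G}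
    (r : HRel N A B al be T 1) (h1N : 1 ≤ N) (J : Set G)
    (hJA : ∀ x ∈ J, ∀ l, 1 ≤ l → l < N → Commute x (A l))
    (hJB : ∀ x ∈ J, ∀ l, 1 ≤ l → l < N → Commute x (B l))
    (hJe : ∀ x ∈ J, ∀ l, 1 ≤ l → l < N → Commute x (be l))
    (hJT : ∀ x ∈ J, ∀ l, 1 ≤ l → l + 1 < N → Commute x (T l))
    (hJ2 : ∀ x ∈ J, ∃ θ : G, (∀ l, 1 ≤ l → l < N → Commute θ (A l)) ∧
      x = θ * (B 0)⁻¹ * θ⁻¹ * B 0)
    (hlev : ∀ l : List ℕ, l.Nodup → (∀ i, i ∈ l ↔ 1 ≤ i ∧ i < N) →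
      (l.map (fun i => ρ (A i) - 1)).prod = 0) :
    ∃ E : Submodule K V, E ≠ ⊥ ∧ (∀ x ∈ PiG N al be, ∀ v ∈ E, ρ x v = v) ∧
      ∀ x ∈ J, ∀ v ∈ E, ρ x v = v := by
  classical
  -- (a)
  have ha : ∃ h, 2 ≤ h ∧ h ≤ N ∧ ∃ E : Submodule K V, E ≠ ⊥ ∧ IsS ρ N A B al be T h E ∧
      ∀ x ∈ J, ∀ v ∈ E, ρ x v = v := by
    obtain ⟨h, hN, E, hE0, hE1, hE2, hE3, hE4⟩ := top_std r h1N ρ hlev
    have hst : ∀ x ∈ Mh N A B al be T (h + 2), ∀ v ∈ E, ρ x v ∈ E := fun x hx =>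
      hE1 x (fun l hl => M_comm r (Finset.mem_Ico.1 hl).1 (Finset.mem_Ico.1 hl).2 x hx)
    have hMN : Mh N A B al be T (h + 2) ≤ T4b.fixG ρ E := by
      refine nc_M r hN (T4b.fixG ρ E) (fun v hv => hE2 v hv) ?_
      intro x hx y hy v hv
      have hxi : x⁻¹ ∈ Mh N A B al be T (h + 2) := Subgroup.inv_mem _ hx
      have h1 : ρ y (ρ x⁻¹ v) = ρ x⁻¹ v := hy _ (hst _ hxi v hv)
      rw [mul_app, mul_app, h1, app_inv]
    refine ⟨h + 2, by omega, hN, E, hE0, ⟨?_, fun l hl hlN => hE3 l (Finset.mem_Ico.2 ⟨hl, hlN⟩),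
      fun l hl hlN => hE4 l (Finset.mem_Ico.2 ⟨hl, hlN⟩)⟩, ?_⟩
    · exact fun x hx v hv => hMN hx v hv
    · intro x hx v hv
      obtain ⟨θ, hθ, e⟩ := hJ2 x hx
      have hB : B 0 ∈ Mh N A B al be T (h + 2) := X_M (.B 0 (by omega) (by omega))
      have hB1 : ρ (B 0) v = v := hMN hB v hv
      have hθ1 : ρ θ⁻¹ v ∈ E := hE1 _ (fun l hl => (hθ l (by
        have := (Finset.mem_Ico.1 hl).1; omega) (Finset.mem_Ico.1 hl).2).inv_left) v hv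
      have hB2 : ρ (B 0)⁻¹ (ρ θ⁻¹ v) = ρ θ⁻¹ v := hMN (Subgroup.inv_mem _ hB) _ hθ1
      rw [e, mul_app, hB1, mul_app, mul_app, hB2, app_inv]
  -- maximal `h`
  obtain ⟨h, h2, hhN, E, hE0, hE, hEJ, hmax⟩ : ∃ h, 2 ≤ h ∧ h ≤ N ∧ ∃ E : Submodule K V, E ≠ ⊥ ∧
      IsS ρ N A B al be T h E ∧ (∀ x ∈ J, ∀ v ∈ E, ρ x v = v) ∧
      (h < N → ∀ F : Submodule K V, IsS ρ N A B al be T (h + 1) F →
        (∀ x ∈ J, ∀ v ∈ F, ρ x v = v) → F = ⊥) := by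
    have hex : ∃ n, ∃ h, 2 ≤ h ∧ h ≤ N ∧ N - h = n ∧ ∃ E : Submodule K V, E ≠ ⊥ ∧
        IsS ρ N A B al be T h E ∧ ∀ x ∈ J, ∀ v ∈ E, ρ x v = v := by
      obtain ⟨h, h2, hhN, hE⟩ := ha
      exact ⟨_, h, h2, hhN, rfl, hE⟩
    obtain ⟨h, h2, hhN, hn, E, hE0, hE, hEJ⟩ := Nat.find_spec hex
    refine ⟨h, h2, hhN, E, hE0, hE, hEJ, ?_⟩
    intro hlt F hF hFJ
    by_contra hF0
    refine Nat.find_min hex (m := N - (h + 1)) (by omega)
      ⟨h + 1, by omega, by omega, rfl, F, hF0, hF, hFJ⟩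
  -- (b)
  have hb : h < N → ∀ w ∈ Wg N A B T h, ∀ v ∈ E, ρ (w * be h * w⁻¹) v = v := by
    intro hlt w hw v hv
    have hE' := sys_W ρ r hE w⁻¹ (Subgroup.inv_mem _ hw)
    have hcw : ∀ x ∈ J, Commute w x := by
      intro x hx
      refine W_comm ?_ ?_ w hw
      · intro i hi hi'
        exact Ss_comm (hJA x hx i (by omega) (by omega)).symm
          (hJB x hx i (by omega) (by omega)).symm (hJT x hx i (by omega) (by omega)).symm
          (hJB x hx (i + 1) (by omega) (by omega)).symm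
          (hJA x hx (i + 1) (by omega) (by omega)).symm
      · intro i hi hi'
        exact Rw_comm (hJA x hx i (by omega) hi').symm (hJB x hx i (by omega) hi').symm
    have hEJ' : ∀ x ∈ J, ∀ v ∈ E.map (ρ w⁻¹ : Module.End K V), ρ x v = v := by
      rintro x hx v ⟨u, hu, rfl⟩
      have c1 : Commute x w⁻¹ := (hcw x hx).symm.inv_right
      rw [← mul_app, c1.eq, mul_app, hEJ x hx u hu]
    have h1 : ∀ v ∈ E.map (ρ w⁻¹ : Module.End K V), ρ (B h) v = v → v = 0 := by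
      intro v hv hv2
      have h2 := hmax hlt _ (sys_fix ρ r (by omega) hlt hE')
        (fun x hx v hv => hEJ' x hx v ((mem_fixE ρ _ _ _).1 hv).1)
      have h3 : v ∈ fixE ρ (B h) (E.map (ρ w⁻¹ : Module.End K V)) :=
        (mem_fixE ρ _ _ _).2 ⟨hv, hv2⟩
      rw [h2] at h3
      exact (Submodule.mem_bot K).1 h3
    have h2 := hmax hlt _ (sys3 ρ r (by omega) hlt hE' h1) (by
      intro x hx v hv
      obtain ⟨a, ha, rfl⟩ := (mem_imE ρ _ _ _).1 hv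
      have c1 : Commute x (be h) := hJe x hx h (by omega) hlt
      rw [map_sub, hEJ' x hx a ha, ← mul_app, c1.eq, mul_app, hEJ' x hx a ha])
    have hv' : ρ w⁻¹ v ∈ E.map (ρ w⁻¹ : Module.End K V) := ⟨v, hv, rfl⟩
    have h3 : ρ w⁻¹ v - ρ (be h) (ρ w⁻¹ v) ∈ imE ρ (be h) (E.map (ρ w⁻¹ : Module.End K V)) :=
      (mem_imE ρ _ _ _).2 ⟨_, hv', rfl⟩
    rw [h2] at h3
    have h4 : ρ (be h) (ρ w⁻¹ v) = ρ w⁻¹ v := (sub_eq_zero.1 ((Submodule.mem_bot K).1 h3)).symm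
    rw [mul_app, mul_app, h4, app_inv]
  -- (c)
  have hPi : ∀ x ∈ PiG N al be, ∀ v ∈ E, ρ x v = v := by
    intro x hx v hv
    refine closure_fix ρ _ v ?_ hx
    rintro s (⟨i, hi, rfl⟩ | ⟨i, hi, rfl⟩)
    · exact hE.fix _ (al_M r hi) v hv
    · rcases Nat.lt_or_ge i h with h3 | h3
      · exact hE.fix _ (X_M (.be i h3 hi)) v hv
      · obtain ⟨w, hw, e⟩ := be_W r h3 hi
        rw [e]
        exact hb (by omega) w hw v hv
  exact ⟨E, hE0, hPi, hEJ⟩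

end Pool.Agent.TH35.CH
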