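import Mathlib
import Pool.Agent.TH35.CH.Ext
import Pool.Agent.TH35.CH.SlotJ

set_option autoImplicit false

/-! Inner automorphisms have nonzero fixed vectors in small representations of `Aut(F_n)`. -/

namespace Pool.Agent.TH35.CH

open Pool.Agent.H798R3.MG Pool.Agent.H29R2.MG Pool.Agent.TH35.MG Module

section
variable {γ : Type*} [DecidableEq γ]

/-- `u ↦ u w` -/
def rE (u : γ) (w : FreeGroup γ) : FreeGroup γ →* FreeGroup γ :=
  FreeGroup.lift (fun x => if x = u then FreeGroup.of u * w else FreeGroup.of x)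

/-- `u ↦ w u` -/
def lE (u : γ) (w : FreeGroup γ) : FreeGroup γ →* FreeGroup γ :=
  FreeGroup.lift (fun x => if x = u then w * FreeGroup.of u else FreeGroup.of x)

theorem rE_self (u : γ) (w : FreeGroup γ) : rE u w (FreeGroup.of u) = FreeGroup.of u * w := by
  simp [rE]

theorem rE_ne (u : γ) (w : FreeGroup γ) {x : γ} (h : x ≠ u) :
    rE u w (FreeGroup.of x) = FreeGroup.of x := by
  simp [rE, h]

theorem lE_self (u : γ) (w : FreeGroup γ) : lE u w (FreeGroup.of u) = w * FreeGroup.of u := by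
  simp [lE]

theorem lE_ne (u : γ) (w : FreeGroup γ) {x : γ} (h : x ≠ u) :
    lE u w (FreeGroup.of x) = FreeGroup.of x := by
  simp [lE, h]

/-- the transvection `u ↦ u z` -/
def trR (u z : γ) (h : z ≠ u) : MulAut (FreeGroup γ) :=
  MonoidHom.toMulEquiv (rE u (FreeGroup.of z)) (rE u (FreeGroup.of z)⁻¹)
    (by
      apply FreeGroup.ext_hom
      intro x
      rw [MonoidHom.comp_apply, MonoidHom.id_apply]
      by_cases hx : x = u
      · subst hx
        rw [rE_self, map_mul, rE_self, rE_ne _ _ h]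
        group
      · rw [rE_ne _ _ hx, rE_ne _ _ hx])
    (by
      apply FreeGroup.ext_hom
      intro x
      rw [MonoidHom.comp_apply, MonoidHom.id_apply]
      by_cases hx : x = u
      · subst hx
        rw [rE_self, map_mul, map_inv, rE_self, rE_ne _ _ h]
        group
      · rw [rE_ne _ _ hx, rE_ne _ _ hx])

/-- the transvection `u ↦ z⁻¹ u` -/
def trL (u z : γ) (h : z ≠ u) : MulAut (FreeGroup γ) :=
  MonoidHom.toMulEquiv (lE u (FreeGroup.of z)⁻¹) (lE u (FreeGroup.of z))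
    (by
      apply FreeGroup.ext_hom
      intro x
      rw [MonoidHom.comp_apply, MonoidHom.id_apply]
      by_cases hx : x = u
      · subst hx
        rw [lE_self, map_mul, map_inv, lE_self, lE_ne _ _ h]
        group
      · rw [lE_ne _ _ hx, lE_ne _ _ hx])
    (by
      apply FreeGroup.ext_hom
      intro x
      rw [MonoidHom.comp_apply, MonoidHom.id_apply]
      by_cases hx : x = u
      · subst hx
        rw [lE_self, map_mul, lE_self, lE_ne _ _ h]
        group
      · rw [lE_ne _ _ hx, lE_ne _ _ hx])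

theorem trR_self (u z : γ) (h : z ≠ u) :
    trR u z h (FreeGroup.of u) = FreeGroup.of u * FreeGroup.of z := rE_self u _

theorem trR_ne (u z : γ) (h : z ≠ u) {x : γ} (hx : x ≠ u) :
    trR u z h (FreeGroup.of x) = FreeGroup.of x := rE_ne u _ hx

theorem trL_self (u z : γ) (h : z ≠ u) :
    trL u z h (FreeGroup.of u) = (FreeGroup.of z)⁻¹ * FreeGroup.of u := lE_self u _

theorem trL_ne (u z : γ) (h : z ≠ u) {x : γ} (hx : x ≠ u) :
    trL u z h (FreeGroup.of x) = FreeGroup.of x := lE_ne u _ hx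

omit [DecidableEq γ] in
theorem aut_ext {φ ψ : MulAut (FreeGroup γ)}
    (h : ∀ x, φ (FreeGroup.of x) = ψ (FreeGroup.of x)) : φ = ψ := by
  apply MulEquiv.ext
  intro w
  have h1 : (φ : FreeGroup γ →* FreeGroup γ) = (ψ : FreeGroup γ →* FreeGroup γ) :=
    FreeGroup.ext_hom _ _ h
  exact DFunLike.congr_fun h1 w

theorem comm_trR (u z : γ) (h : z ≠ u) (φ : MulAut (FreeGroup γ))
    (hu : φ (FreeGroup.of u) = FreeGroup.of u) (hz : φ (FreeGroup.of z) = FreeGroup.of z)
    (hx : ∀ x, x ≠ u → trR u z h (φ (FreeGroup.of x)) = φ (FreeGroup.of x)) :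
    Commute (trR u z h) φ := by
  apply aut_ext
  intro x
  rw [MulAut.mul_apply, MulAut.mul_apply]
  by_cases e : x = u
  · subst e
    rw [hu, trR_self, map_mul, hu, hz]
  · rw [hx x e, trR_ne _ _ _ e]

theorem comm_trL (u z : γ) (h : z ≠ u) (φ : MulAut (FreeGroup γ))
    (hu : φ (FreeGroup.of u) = FreeGroup.of u) (hz : φ (FreeGroup.of z) = FreeGroup.of z)
    (hx : ∀ x, x ≠ u → trL u z h (φ (FreeGroup.of x)) = φ (FreeGroup.of x)) :
    Commute (trL u z h) φ := by
  apply aut_ext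
  intro x
  rw [MulAut.mul_apply, MulAut.mul_apply]
  by_cases e : x = u
  · subst e
    rw [hu, trL_self, map_mul, map_inv, hu, hz]
  · rw [hx x e, trL_ne _ _ _ e]

end

section
variable {g N : ℕ} {β : Type*} [DecidableEq β]

/-- the generator `a_i` -/
def ga (g : ℕ) (β : Type*) (i : ℕ) : FreeGroup ((Fin g ⊕ Fin g) ⊕ β) :=
  FreeGroup.map Sum.inl (ha g i)

/-- the generator `b_i` -/
def gb (g : ℕ) (β : Type*) (i : ℕ) : FreeGroup ((Fin g ⊕ Fin g) ⊕ β) :=
  FreeGroup.map Sum.inl (hb g i)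

omit [DecidableEq β] in
theorem ga_of {i : ℕ} (hi : i < g) :
    ga g β i = FreeGroup.of (Sum.inl (Sum.inl ⟨i, hi⟩)) := by
  unfold ga ha
  rw [dif_pos hi]
  rfl

omit [DecidableEq β] in
theorem gb_of {i : ℕ} (hi : i < g) :
    gb g β i = FreeGroup.of (Sum.inl (Sum.inr ⟨i, hi⟩)) := by
  unfold gb hb
  rw [dif_pos hi]
  rfl

/-- the handle elements in the automorphism group of the free group -/
noncomputable def fh (g : ℕ) (β : Type*) :
    orSub g →* MulAut (FreeGroup ((Fin g ⊕ Fin g) ⊕ β)) :=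
  (ext (β := β)).comp (orSub g).subtype

omit [DecidableEq β] in
theorem fh_inl (x : orSub g) (w : FG g) :
    fh g β x (FreeGroup.map Sum.inl w) = FreeGroup.map Sum.inl ((x : MulAut (FG g)) w) :=
  ext_inl _ _

omit [DecidableEq β] in
theorem fh_inr (x : orSub g) (b : β) :
    fh g β x (FreeGroup.of (Sum.inr b)) = FreeGroup.of (Sum.inr b) :=
  ext_inr _ _

omit [DecidableEq β] in
theorem A_ga (c : Ctx g N (N + 2)) {i j : ℕ} (hi : i < N) (hj : j < g) :
    fh g β (sA g i) (ga g β j) = ga g β j := by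
  unfold ga
  rw [fh_inl, vA whyp c hi]
  unfold hA
  rw [ends_ha _ _ hj]

omit [DecidableEq β] in
theorem A_gb (c : Ctx g N (N + 2)) {i j : ℕ} (hi : i < N) (hj : j < g) (hij : j ≠ i) :
    fh g β (sA g i) (gb g β j) = gb g β j := by
  unfold gb
  rw [fh_inl, vA whyp c hi]
  unfold hA
  rw [ends_hb _ _ hj, if_neg hij]

omit [DecidableEq β] in
theorem A_gb' (c : Ctx g N (N + 2)) {i : ℕ} (hi : i < N) :
    fh g β (sA g i) (gb g β i) = gb g β i * ga g β i := by
  have := c.hg
  unfold ga gb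
  rw [fh_inl, vA whyp c hi]
  unfold hA
  rw [ends_hb _ _ (by omega), if_pos rfl, map_mul]

omit [DecidableEq β] in
theorem B_gb (c : Ctx g N (N + 2)) {i j : ℕ} (hi : i < N) (hj : j < g) :
    fh g β (sB g i) (gb g β j) = gb g β j := by
  unfold gb
  rw [fh_inl, vB whyp c hi]
  unfold hB
  rw [ends_hb _ _ hj]

omit [DecidableEq β] in
theorem B_ga (c : Ctx g N (N + 2)) {i j : ℕ} (hi : i < N) (hj : j < g) (hij : j ≠ i) :
    fh g β (sB g i) (ga g β j) = ga g β j := by
  unfold ga
  rw [fh_inl, vB whyp c hi]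
  unfold hB
  rw [ends_ha _ _ hj, if_neg hij]

omit [DecidableEq β] in
theorem B_ga' (c : Ctx g N (N + 2)) {i : ℕ} (hi : i < N) :
    fh g β (sB g i) (ga g β i) = ga g β i * (gb g β i)⁻¹ := by
  have := c.hg
  unfold ga gb
  rw [fh_inl, vB whyp c hi]
  unfold hB
  rw [ends_ha _ _ (by omega), if_pos rfl, map_mul, map_inv]

omit [DecidableEq β] in
theorem T_ga (c : Ctx g N (N + 2)) {i j : ℕ} (hi : i + 1 < N) (hj : j < g) (h1 : j ≠ i)
    (h2 : j ≠ i + 1) : fh g β (sT g i (i + 1)) (ga g β j) = ga g β j := by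
  unfold ga
  rw [fh_inl, vT whyp c hi]
  unfold hT
  rw [ends_ha _ _ hj, if_neg h1, if_neg h2]

omit [DecidableEq β] in
theorem T_gb (c : Ctx g N (N + 2)) {i j : ℕ} (hi : i + 1 < N) (hj : j < g) (h1 : j ≠ i)
    (h2 : j ≠ i + 1) : fh g β (sT g i (i + 1)) (gb g β j) = gb g β j := by
  unfold gb
  rw [fh_inl, vT whyp c hi]
  unfold hT
  rw [ends_hb _ _ hj, if_neg h1, if_neg h2]

theorem De_one (i : ℕ) : De g i (i + 1) = dd g i := by
  unfold De
  rw [show i + 1 - i = 1 by omega]
  simp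

omit [DecidableEq β] in
theorem map_uT (i : ℕ) : FreeGroup.map (Sum.inl : _ → (Fin g ⊕ Fin g) ⊕ β) (uT g i (i + 1)) =
    UU (dl (ga g β) (gb g β) i) (ga g β i) (ga g β (i + 1)) := by
  unfold uT UU dl ga gb
  rw [De_one]
  simp only [dd, map_mul, map_inv]

omit [DecidableEq β] in
theorem map_pT (i : ℕ) : FreeGroup.map (Sum.inl : _ → (Fin g ⊕ Fin g) ⊕ β) (pT g i (i + 1)) =
    WW (dl (ga g β) (gb g β) i) (ga g β i) (ga g β (i + 1)) := by
  unfold pT WW dl ga gb
  rw [De_one]
  simp only [dd, map_mul, map_inv]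

omit [DecidableEq β] in
theorem T_vals (c : Ctx g N (N + 2)) {i : ℕ} (hi : i + 1 < N) :
    fh g β (sT g i (i + 1)) (ga g β i) =
      (UU (dl (ga g β) (gb g β) i) (ga g β i) (ga g β (i + 1)))⁻¹ * ga g β i *
        UU (dl (ga g β) (gb g β) i) (ga g β i) (ga g β (i + 1)) ∧
    fh g β (sT g i (i + 1)) (gb g β i) =
      gb g β i * UU (dl (ga g β) (gb g β) i) (ga g β i) (ga g β (i + 1)) ∧
    fh g β (sT g i (i + 1)) (ga g β (i + 1)) =
      (WW (dl (ga g β) (gb g β) i) (ga g β i) (ga g β (i + 1)))⁻¹ * ga g β (i + 1) *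
        WW (dl (ga g β) (gb g β) i) (ga g β i) (ga g β (i + 1)) ∧
    fh g β (sT g i (i + 1)) (gb g β (i + 1)) =
      gb g β (i + 1) * WW (dl (ga g β) (gb g β) i) (ga g β i) (ga g β (i + 1)) := by
  have := c.hg
  rw [← map_uT, ← map_pT]
  refine ⟨?_, ?_, ?_, ?_⟩
  · unfold ga
    rw [fh_inl, vT whyp c hi]
    unfold hT
    rw [ends_ha _ _ (by omega), if_pos rfl]
    simp only [map_mul, map_inv]
  · unfold gb
    rw [fh_inl, vT whyp c hi]
    unfold hT
    rw [ends_hb _ _ (by omega), if_pos rfl]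
    simp only [map_mul]
  · unfold ga
    rw [fh_inl, vT whyp c hi]
    unfold hT
    rw [ends_ha _ _ (by omega), if_neg (by omega), if_pos rfl]
    simp only [map_mul, map_inv]
  · unfold gb
    rw [fh_inl, vT whyp c hi]
    unfold hT
    rw [ends_hb _ _ (by omega), if_neg (by omega), if_pos rfl]
    simp only [map_mul]

omit [DecidableEq β] in
/-- the handle relations for inner automorphisms -/
theorem inn_rel (c : Ctx g N (N + 2)) :
    HRel N (fun i => fh g β (sA g i)) (fun i => fh g β (sB g i))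
      (fun i => MulAut.conj (ga g β i)) (fun i => MulAut.conj (gb g β i))
      (fun i => fh g β (sT g i (i + 1))) 1 := by
  have hg := c.hg
  refine swap ((h_rel whyp c).map (fh g β)) (ga g β) (gb g β)
    (fun i hi j hj => A_ga c hi (by omega))
    (fun i hi j hj hij => A_gb c hi (by omega) (Ne.symm hij))
    (fun i hi => A_gb' c hi)
    (fun i hi j hj => B_gb c hi (by omega))
    (fun i hi j hj hij => B_ga c hi (by omega) (Ne.symm hij))
    (fun i hi => B_ga' c hi)
    (fun i hi m hm h1 h2 => T_ga c hi (by omega) h1 h2)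
    (fun i hi m hm h1 h2 => T_gb c hi (by omega) h1 h2)
    (fun i hi => (T_vals c hi).1) (fun i hi => (T_vals c hi).2.1)
    (fun i hi => (T_vals c hi).2.2.1) (fun i hi => (T_vals c hi).2.2.2) ?_ ?_
  · intro i hi
    have h1 := (vS whyp c hi).1
    rw [← map_Ss]
    unfold ga
    rw [fh_inl]
    exact congrArg _ h1
  · intro i hi
    have h1 := (vS whyp c hi).2
    rw [← map_Ss]
    unfold gb
    rw [fh_inl]
    exact congrArg _ h1

end

end Pool.Agent.TH35.CH
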