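import Mathlib
import Pool.Agent.TH35.CH.Inn

set_option autoImplicit false

/-! Inner automorphisms have nonzero fixed vectors in small representations of `Aut(F_n)`. -/

namespace Pool.Agent.TH35.CH

open Pool.Agent.H798R3.MG Pool.Agent.H29R2.MG Pool.Agent.TH35.MG Module

/-- the fixed subgroup -/
def fixS {F : Type*} [Group F] (φ : MulAut F) : Subgroup F where
  carrier := {w | φ w = w}
  one_mem' := map_one φ
  mul_mem' := by
    intro a b ha hb
    show φ (a * b) = a * b
    rw [map_mul, ha, hb]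
  inv_mem' := by
    intro a ha
    show φ a⁻¹ = a⁻¹
    rw [map_inv, ha]

section
variable {g N : ℕ} {β : Type*} [DecidableEq β]

/-- generators outside the handles `< N` -/
def Extra (N : ℕ) (z : (Fin g ⊕ Fin g) ⊕ β) : Prop :=
  (∀ m : Fin g, z = Sum.inl (Sum.inl m) → N ≤ m) ∧ ∀ m : Fin g, z = Sum.inl (Sum.inr m) → N ≤ m

omit [DecidableEq β] in
theorem UU_mem {S : Subgroup (FreeGroup ((Fin g ⊕ Fin g) ⊕ β))} {i : ℕ}
    (h1 : ga g β i ∈ S) (h2 : gb g β i ∈ S) (h3 : ga g β (i + 1) ∈ S) :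
    UU (dl (ga g β) (gb g β) i) (ga g β i) (ga g β (i + 1)) ∈ S ∧
    WW (dl (ga g β) (gb g β) i) (ga g β i) (ga g β (i + 1)) ∈ S := by
  have hd : dl (ga g β) (gb g β) i ∈ S :=
    mul_mem (mul_mem (mul_mem h1 h2) (inv_mem h1)) (inv_mem h2)
  exact ⟨mul_mem (mul_mem (mul_mem hd h3) (inv_mem hd)) h1,
    mul_mem (mul_mem (mul_mem (inv_mem hd) h1) hd) h3⟩

omit [DecidableEq β] in
/-- `A_l` maps the generators into a subgroup containing them -/
theorem A_into (c : Ctx g N (N + 2)) {l : ℕ} (hl : l < N)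
    (S : Subgroup (FreeGroup ((Fin g ⊕ Fin g) ⊕ β))) (hal : ga g β l ∈ S)
    (x : (Fin g ⊕ Fin g) ⊕ β) (hx : FreeGroup.of x ∈ S) :
    fh g β (sA g l) (FreeGroup.of x) ∈ S := by
  rcases x with (m | m) | b
  · rw [← ga_of m.2] at hx ⊢
    rwa [A_ga c hl m.2]
  · rw [← gb_of m.2] at hx ⊢
    by_cases e : (m : ℕ) = l
    · rw [e] at hx ⊢
      rw [A_gb' c hl]
      exact mul_mem hx hal
    · rwa [A_gb c hl m.2 e]
  · rwa [fh_inr]

omit [DecidableEq β] in
theorem B_into (c : Ctx g N (N + 2)) {l : ℕ} (hl : l < N)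
    (S : Subgroup (FreeGroup ((Fin g ⊕ Fin g) ⊕ β))) (hbl : gb g β l ∈ S)
    (x : (Fin g ⊕ Fin g) ⊕ β) (hx : FreeGroup.of x ∈ S) :
    fh g β (sB g l) (FreeGroup.of x) ∈ S := by
  rcases x with (m | m) | b
  · rw [← ga_of m.2] at hx ⊢
    by_cases e : (m : ℕ) = l
    · rw [e] at hx ⊢
      rw [B_ga' c hl]
      exact mul_mem hx (inv_mem hbl)
    · rwa [B_ga c hl m.2 e]
  · rw [← gb_of m.2] at hx ⊢
    rwa [B_gb c hl m.2]
  · rwa [fh_inr]

omit [DecidableEq β] in
theorem T_into (c : Ctx g N (N + 2)) {l : ℕ} (hl : l + 1 < N)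
    (S : Subgroup (FreeGroup ((Fin g ⊕ Fin g) ⊕ β))) (hal : ga g β l ∈ S)
    (hbl : gb g β l ∈ S) (hal' : ga g β (l + 1) ∈ S)
    (x : (Fin g ⊕ Fin g) ⊕ β) (hx : FreeGroup.of x ∈ S) :
    fh g β (sT g l (l + 1)) (FreeGroup.of x) ∈ S := by
  obtain ⟨hU, hW⟩ := UU_mem hal hbl hal'
  obtain ⟨t1, t2, t3, t4⟩ := T_vals (β := β) c hl
  rcases x with (m | m) | b
  · rw [← ga_of m.2] at hx ⊢
    by_cases e : (m : ℕ) = l
    · rw [e] at hx ⊢
      rw [t1]
      exact mul_mem (mul_mem (inv_mem hU) hx) hU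
    · by_cases e' : (m : ℕ) = l + 1
      · rw [e'] at hx ⊢
        rw [t3]
        exact mul_mem (mul_mem (inv_mem hW) hx) hW
      · rwa [T_ga c hl m.2 e e']
  · rw [← gb_of m.2] at hx ⊢
    by_cases e : (m : ℕ) = l
    · rw [e] at hx ⊢
      rw [t2]
      exact mul_mem hx hU
    · by_cases e' : (m : ℕ) = l + 1
      · rw [e'] at hx ⊢
        rw [t4]
        exact mul_mem hx hW
      · rwa [T_gb c hl m.2 e e']
  · rwa [fh_inr]

omit [DecidableEq β] in
/-- extra generators are fixed -/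
theorem A_ex (c : Ctx g N (N + 2)) {l : ℕ} (hl : l < N) {z : (Fin g ⊕ Fin g) ⊕ β}
    (hz : Extra N z) : fh g β (sA g l) (FreeGroup.of z) = FreeGroup.of z := by
  rcases z with (m | m) | b
  · have := hz.1 m rfl
    rw [← ga_of m.2, A_ga c hl m.2]
  · have := hz.2 m rfl
    rw [← gb_of m.2, A_gb c hl m.2 (by omega)]
  · rw [fh_inr]

omit [DecidableEq β] in
theorem B_ex (c : Ctx g N (N + 2)) {l : ℕ} (hl : l < N) {z : (Fin g ⊕ Fin g) ⊕ β}
    (hz : Extra N z) : fh g β (sB g l) (FreeGroup.of z) = FreeGroup.of z := by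
  rcases z with (m | m) | b
  · have := hz.1 m rfl
    rw [← ga_of m.2, B_ga c hl m.2 (by omega)]
  · have := hz.2 m rfl
    rw [← gb_of m.2, B_gb c hl m.2]
  · rw [fh_inr]

omit [DecidableEq β] in
theorem T_ex (c : Ctx g N (N + 2)) {l : ℕ} (hl : l + 1 < N) {z : (Fin g ⊕ Fin g) ⊕ β}
    (hz : Extra N z) : fh g β (sT g l (l + 1)) (FreeGroup.of z) = FreeGroup.of z := by
  rcases z with (m | m) | b
  · have := hz.1 m rfl
    rw [← ga_of m.2, T_ga c hl m.2 (by omega) (by omega)]
  · have := hz.2 m rfl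
    rw [← gb_of m.2, T_gb c hl m.2 (by omega) (by omega)]
  · rw [fh_inr]

end

universe u

/-- the first generator `a_0` -/
def u0 (g : ℕ) (hg : 0 < g) (β : Type*) : (Fin g ⊕ Fin g) ⊕ β := Sum.inl (Sum.inl ⟨0, hg⟩)

/-- the first generator `b_0` -/
def v0 (g : ℕ) (hg : 0 < g) (β : Type*) : (Fin g ⊕ Fin g) ⊕ β := Sum.inl (Sum.inr ⟨0, hg⟩)

/-- inner automorphisms have a common fixed vector in small representations -/
theorem inn_fix {K V : Type u} [Field K] [IsAlgClosed K] [AddCommGroup V] [Module K V]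
    [FiniteDimensional K V] [Nontrivial V] {g N : ℕ} (hN : 2 ≤ N) (hg : N + 3 ≤ g)
    {β : Type*} [DecidableEq β]
    (ρ : MulAut (FreeGroup ((Fin g ⊕ Fin g) ⊕ β)) →* Module.End K V)
    (hdim : finrank K V < 2 ^ (N - 2)) :
    ∃ E : Submodule K V, E ≠ ⊥ ∧ ∀ w, ∀ v ∈ E, ρ (MulAut.conj w) v = v := by
  have c : Ctx g N (N + 2) := ⟨hN, le_refl _, by omega⟩
  have hg0 : 0 < g := by omega
  have r := inn_rel (β := β) c
  have ea : FreeGroup.of (u0 g hg0 β) = ga g β 0 := (ga_of hg0).symm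
  have eb : FreeGroup.of (v0 g hg0 β) = gb g β 0 := (gb_of hg0).symm
  have nu : ∀ {z : (Fin g ⊕ Fin g) ⊕ β}, Extra N z → z ≠ u0 g hg0 β := by
    intro z hz h
    have := hz.1 _ h
    simp at this
    omega
  have nv : ∀ {z : (Fin g ⊕ Fin g) ⊕ β}, Extra N z → z ≠ v0 g hg0 β := by
    intro z hz h
    have := hz.2 _ h
    simp at this
    omega
  -- fixed generators
  have fR : ∀ {z : (Fin g ⊕ Fin g) ⊕ β} (h : z ≠ u0 g hg0 β) (x : (Fin g ⊕ Fin g) ⊕ β),
      x ≠ u0 g hg0 β → FreeGroup.of x ∈ fixS (trR (u0 g hg0 β) z h) :=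
    fun h x hx => trR_ne _ _ _ hx
  have fL : ∀ {z : (Fin g ⊕ Fin g) ⊕ β} (h : z ≠ v0 g hg0 β) (x : (Fin g ⊕ Fin g) ⊕ β),
      x ≠ v0 g hg0 β → FreeGroup.of x ∈ fixS (trL (v0 g hg0 β) z h) :=
    fun h x hx => trL_ne _ _ _ hx
  have fRa : ∀ {z : (Fin g ⊕ Fin g) ⊕ β} (h : z ≠ u0 g hg0 β) (l : ℕ), 1 ≤ l → l < g →
      ga g β l ∈ fixS (trR (u0 g hg0 β) z h) := by
    intro z h l h1 h2
    rw [ga_of h2]
    refine fR h _ ?_
    intro e
    simp only [u0, Sum.inl.injEq, Fin.mk.injEq] at e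
    omega
  have fRb : ∀ {z : (Fin g ⊕ Fin g) ⊕ β} (h : z ≠ u0 g hg0 β) (l : ℕ), l < g →
      gb g β l ∈ fixS (trR (u0 g hg0 β) z h) := by
    intro z h l h2
    rw [gb_of h2]
    refine fR h _ ?_
    intro e
    simp [u0] at e
  have fLa : ∀ {z : (Fin g ⊕ Fin g) ⊕ β} (h : z ≠ v0 g hg0 β) (l : ℕ), l < g →
      ga g β l ∈ fixS (trL (v0 g hg0 β) z h) := by
    intro z h l h2
    rw [ga_of h2]
    refine fL h _ ?_
    intro e
    simp [v0] at e
  let J : Set (MulAut (FreeGroup ((Fin g ⊕ Fin g) ⊕ β))) :=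
    {x | ∃ z, ∃ h : Extra N z, x = trR (u0 g hg0 β) z (nu h)}
  obtain ⟨E, hE0, hE1, hE2⟩ := slot_J ρ r (by omega) J
    (by
      rintro x ⟨z, hz, rfl⟩ l h1 h2
      refine comm_trR _ _ _ _ ?_ (A_ex c h2 hz) ?_
      · rw [ea, A_ga c h2 hg0]
      · intro x hx
        exact A_into c h2 (fixS _) (fRa (nu hz) l h1 (by omega)) x (fR (nu hz) x hx))
    (by
      rintro x ⟨z, hz, rfl⟩ l h1 h2
      refine comm_trR _ _ _ _ ?_ (B_ex c h2 hz) ?_
      · rw [ea, B_ga c h2 hg0 (by omega)]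
      · intro x hx
        exact B_into c h2 (fixS _) (fRb (nu hz) l (by omega)) x (fR (nu hz) x hx))
    (by
      rintro x ⟨z, hz, rfl⟩ l h1 h2
      exact comm_fix (fRb (nu hz) l (by omega)))
    (by
      rintro x ⟨z, hz, rfl⟩ l h1 h2
      refine comm_trR _ _ _ _ ?_ (T_ex c h2 hz) ?_
      · rw [ea, T_ga c h2 hg0 (by omega) (by omega)]
      · intro x hx
        exact T_into c h2 (fixS _) (fRa (nu hz) l h1 (by omega)) (fRb (nu hz) l (by omega))
          (fRa (nu hz) (l + 1) (by omega) (by omega)) x (fR (nu hz) x hx))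
    (by
      rintro x ⟨z, hz, rfl⟩
      refine ⟨(trL (v0 g hg0 β) z (nv hz))⁻¹, ?_, ?_⟩
      · intro l h1 h2
        refine Commute.inv_left ?_
        refine comm_trL _ _ _ _ ?_ (A_ex c h2 hz) ?_
        · rw [eb, A_gb c h2 hg0 (by omega)]
        · intro x hx
          exact A_into c h2 (fixS _) (fLa (nv hz) l (by omega)) x (fL (nv hz) x hx)
      · have key : trL (v0 g hg0 β) z (nv hz) * fh g β (sB g 0) =
            fh g β (sB g 0) * trL (v0 g hg0 β) z (nv hz) * trR (u0 g hg0 β) z (nu hz) := by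
          have hb0 : fh g β (sB g 0) (gb g β 0) = gb g β 0 := B_gb c (by omega) hg0
          have ha0 : fh g β (sB g 0) (ga g β 0) = ga g β 0 * (gb g β 0)⁻¹ := B_ga' c (by omega)
          have hz0 : fh g β (sB g 0) (FreeGroup.of z) = FreeGroup.of z := B_ex c (by omega) hz
          have la : trL (v0 g hg0 β) z (nv hz) (ga g β 0) = ga g β 0 := fLa (nv hz) 0 hg0
          have lb : trL (v0 g hg0 β) z (nv hz) (gb g β 0) = (FreeGroup.of z)⁻¹ * gb g β 0 := by
            rw [← eb]; exact trL_self _ _ _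
          have lz : trL (v0 g hg0 β) z (nv hz) (FreeGroup.of z) = FreeGroup.of z :=
            fL (nv hz) z (nv hz)
          have ra : trR (u0 g hg0 β) z (nu hz) (ga g β 0) = ga g β 0 * FreeGroup.of z := by
            rw [← ea]; exact trR_self _ _ _
          have rb : trR (u0 g hg0 β) z (nu hz) (gb g β 0) = gb g β 0 := fRb (nu hz) 0 hg0
          apply aut_ext
          intro x
          rw [MulAut.mul_apply, MulAut.mul_apply, MulAut.mul_apply]
          by_cases e1 : x = u0 g hg0 β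
          · rw [e1, ea, ha0, ra, map_mul, map_mul, map_mul, map_inv, la, lb, lz, ha0, hz0]
            group
          · by_cases e2 : x = v0 g hg0 β
            · rw [e2, eb, hb0, lb, rb, lb, map_mul, map_inv, hz0, hb0]
            · have rx : trR (u0 g hg0 β) z (nu hz) (FreeGroup.of x) = FreeGroup.of x :=
                fR (nu hz) x e1
              have lx : trL (v0 g hg0 β) z (nv hz) (FreeGroup.of x) = FreeGroup.of x :=
                fL (nv hz) x e2
              have bx : fh g β (sB g 0) (FreeGroup.of x) = FreeGroup.of x := by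
                rcases x with (m | m) | b
                · have hm : (m : ℕ) ≠ 0 := by
                    intro h
                    apply e1
                    unfold u0
                    congr 2
                    exact Fin.ext h
                  rw [← ga_of m.2, B_ga c (by omega) m.2 hm]
                · rw [← gb_of m.2, B_gb c (by omega) m.2]
                · rw [fh_inr]
              rw [bx, rx, lx, bx]
        rw [inv_inv, mul_assoc _ (trL (v0 g hg0 β) z (nv hz)), key]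
        group)
    (hlev_dim r hN ρ hdim)
  refine ⟨E, hE0, ?_⟩
  -- the group fixing `E`
  have hP : ∀ w, MulAut.conj w ∈ T4b.fixG ρ E := by
    have ha : ∀ i < N, MulAut.conj (ga g β i) ∈ T4b.fixG ρ E := fun i hi v hv =>
      hE1 _ (Subgroup.subset_closure (Or.inl ⟨i, hi, rfl⟩)) v hv
    have hb : ∀ i < N, MulAut.conj (gb g β i) ∈ T4b.fixG ρ E := fun i hi v hv =>
      hE1 _ (Subgroup.subset_closure (Or.inr ⟨i, hi, rfl⟩)) v hv
    have hex : ∀ z, Extra N z → MulAut.conj (FreeGroup.of z) ∈ T4b.fixG ρ E := by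
      intro z hz
      have h1 : trR (u0 g hg0 β) z (nu hz) ∈ T4b.fixG ρ E := fun v hv => hE2 _ ⟨z, hz, rfl⟩ v hv
      have h2 := conj_aut (trR (u0 g hg0 β) z (nu hz)) (ga g β 0)
      have h3 : trR (u0 g hg0 β) z (nu hz) (ga g β 0) = ga g β 0 * FreeGroup.of z := by
        rw [← ea]; exact trR_self _ _ _
      rw [h3, map_mul] at h2
      have h4 : MulAut.conj (FreeGroup.of z) = (MulAut.conj (ga g β 0))⁻¹ *
          (trR (u0 g hg0 β) z (nu hz) * MulAut.conj (ga g β 0) *
            (trR (u0 g hg0 β) z (nu hz))⁻¹) := by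
        rw [h2]; group
      rw [h4]
      have h5 := ha 0 (by omega)
      exact mul_mem (inv_mem h5) (mul_mem (mul_mem h1 h5) (inv_mem h1))
    have hgen : ∀ z : (Fin g ⊕ Fin g) ⊕ β, MulAut.conj (FreeGroup.of z) ∈ T4b.fixG ρ E := by
      intro z
      rcases z with (m | m) | b
      · rcases Nat.lt_or_ge m N with h | h
        · rw [← ga_of m.2]
          exact ha m h
        · refine hex _ ⟨?_, ?_⟩
          · intro m' hm'
            simp only [Sum.inl.injEq] at hm'
            rwa [← hm']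
          · intro m' hm'
            simp at hm'
      · rcases Nat.lt_or_ge m N with h | h
        · rw [← gb_of m.2]
          exact hb m h
        · refine hex _ ⟨?_, ?_⟩
          · intro m' hm'
            simp at hm'
          · intro m' hm'
            simp only [Sum.inl.injEq, Sum.inr.injEq] at hm'
            rwa [← hm']
      · refine hex _ ⟨?_, ?_⟩
        · intro m' hm'
          simp at hm'
        · intro m' hm'
          simp at hm'
    intro w
    induction w using FreeGroup.induction_on with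
    | C1 => rw [map_one]; exact one_mem _
    | of x => exact hgen x
    | inv_of x hx => rw [map_inv]; exact inv_mem hx
    | mul x y hx hy => rw [map_mul]; exact mul_mem hx hy
  exact fun w v hv => hP w v hv

end Pool.Agent.TH35.CH
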