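import Mathlib
import Pool.Agent.TH35.CH.Inn2

set_option autoImplicit false

/-! Groups acting unipotently are nilpotent; inner automorphisms act unipotently in small
representations of `Aut(F_n)`. -/

namespace Pool.Agent.TH35.CH

open Pool.Agent.H798R3.MG Pool.Agent.H29R2.MG Pool.Agent.TH35.MG Pool.Agent.Helper950.BG Module
open scoped commutatorElement

section
variable {K V F : Type*} [Field K] [AddCommGroup V] [Module K V] [Group F]
  (u : F →* Module.End K V)

/-- the vectors killed by all products of `j` elements `u w - 1` -/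
def Vf (j : ℕ) : Submodule K V where
  carrier := {v | ∀ l : List F, l.length = j → (l.map (fun w => u w - 1)).prod v = 0}
  zero_mem' := fun l _ => map_zero _
  add_mem' := by
    intro a b ha hb l hl
    rw [map_add, ha l hl, hb l hl, add_zero]
  smul_mem' := by
    intro c a ha l hl
    rw [map_smul, ha l hl, smul_zero]

theorem Vf_mono (j : ℕ) : Vf u j ≤ Vf u (j + 1) := by
  intro v hv l hl
  cases l with
  | nil => simp at hl
  | cons x l =>
    rw [List.length_cons] at hl
    rw [List.map_cons, List.prod_cons, Module.End.mul_apply, hv l (by omega), map_zero]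

/-- lowering the filtration by `k` -/
def Pk (k : ℕ) (T : Module.End K V) : Prop := ∀ j, ∀ v ∈ Vf u (j + k), T v ∈ Vf u j

variable {u}

theorem P1 (w : F) : Pk u 1 (u w - 1) := by
  intro j v hv l hl
  have h := hv (l ++ [w]) (by rw [List.length_append, hl]; rfl)
  rwa [List.map_append, List.prod_append, List.map_singleton, List.prod_singleton,
    Module.End.mul_apply] at h

theorem Pk_mul {k l : ℕ} {T T' : Module.End K V} (h : Pk u k T) (h' : Pk u l T') :
    Pk u (k + l) (T * T') := by
  intro j v hv
  rw [Module.End.mul_apply]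
  apply h
  apply h'
  rwa [add_assoc]

theorem Pk_add {k : ℕ} {T T' : Module.End K V} (h : Pk u k T) (h' : Pk u k T') :
    Pk u k (T + T') := by
  intro j v hv
  rw [LinearMap.add_apply]
  exact Submodule.add_mem _ (h j v hv) (h' j v hv)

theorem Pk_sub {k : ℕ} {T T' : Module.End K V} (h : Pk u k T) (h' : Pk u k T') :
    Pk u k (T - T') := by
  intro j v hv
  rw [LinearMap.sub_apply]
  exact Submodule.sub_mem _ (h j v hv) (h' j v hv)

theorem P0 (w : F) : Pk u 0 (u w) := by
  intro j v hv
  have h1 := P1 (u := u) w j v (Vf_mono u j hv)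
  have h2 := Submodule.add_mem _ h1 hv
  rw [LinearMap.sub_apply, Module.End.one_apply, sub_add_cancel] at h2
  exact h2

variable (u)

/-- the elements acting as `1` up to `k` steps of the filtration -/
def Dk (k : ℕ) : Subgroup F where
  carrier := {g | Pk u k (u g - 1)}
  one_mem' := by
    intro j v hv
    rw [map_one, sub_self, LinearMap.zero_apply]
    exact Submodule.zero_mem _
  mul_mem' := by
    intro a b ha hb
    have e : u (a * b) - 1 = (u a - 1) * u b + (u b - 1) := by
      rw [map_mul]; noncomm_ring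
    show Pk u k (u (a * b) - 1)
    rw [e]
    exact Pk_add (Pk_mul ha (P0 b)) hb
  inv_mem' := by
    intro a ha
    have h1 : u a⁻¹ * u a = 1 := by rw [← map_mul, inv_mul_cancel, map_one]
    have e : u a⁻¹ - 1 = 0 - u a⁻¹ * (u a - 1) := by
      rw [mul_sub, h1]; noncomm_ring
    show Pk u k (u a⁻¹ - 1)
    rw [e]
    refine Pk_sub ?_ ?_
    · intro j v hv
      rw [LinearMap.zero_apply]
      exact Submodule.zero_mem _
    · have h2 := Pk_mul (P0 a⁻¹) ha
      rwa [zero_add] at h2

theorem lcs_Dk (k : ℕ) : (⊤ : Subgroup F).lowerCentralSeries k ≤ Dk u (k + 1) := by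
  induction k with
  | zero => intro g _; exact P1 g
  | succ k ih =>
    rw [Subgroup.lowerCentralSeries_succ, Subgroup.commutator_le]
    intro g hg h _
    have h1 : Pk u (k + 1) (u g - 1) := ih hg
    have h2 : Pk u 1 (u h - 1) := P1 h
    have e0 : u g * u g⁻¹ = 1 := by rw [← map_mul, mul_inv_cancel, map_one]
    have e1 : u h * u h⁻¹ = 1 := by rw [← map_mul, mul_inv_cancel, map_one]
    have e : u ⁅g, h⁆ - 1 = ((u g - 1) * (u h - 1) - (u h - 1) * (u g - 1)) *
        u (g⁻¹ * h⁻¹) := by
      rw [commutatorElement_def, map_mul, map_mul, map_mul, map_mul]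
      have e2 : u h * u g * (u g⁻¹ * u h⁻¹) = 1 := by
        calc u h * u g * (u g⁻¹ * u h⁻¹) = u h * (u g * u g⁻¹) * u h⁻¹ := by noncomm_ring
          _ = 1 := by rw [e0, mul_one, e1]
      calc u g * u h * u g⁻¹ * u h⁻¹ - 1 = u g * u h * u g⁻¹ * u h⁻¹ -
          u h * u g * (u g⁻¹ * u h⁻¹) := by rw [e2]
        _ = _ := by noncomm_ring
    show Pk u (k + 1 + 1) (u ⁅g, h⁆ - 1)
    rw [e]
    have h3 := Pk_mul (Pk_sub (Pk_mul h1 h2) (by
      have := Pk_mul h2 h1
      rwa [add_comm 1 (k + 1)] at this)) (P0 (g⁻¹ * h⁻¹))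
    rwa [add_zero] at h3

theorem lcs_unip (D : ℕ)
    (hprod : ∀ l : List F, l.length = D + 1 → (l.map (fun w => u w - 1)).prod = 0)
    (g : F) (hg : g ∈ (⊤ : Subgroup F).lowerCentralSeries D) : u g = 1 := by
  have h := lcs_Dk u D hg
  have h1 : Pk u (D + 1) (u g - 1) := h
  ext v
  have h2 := h1 0 v (by
    intro l hl
    rw [hprod l (by omega), LinearMap.zero_apply])
  have h3 := h2 [] rfl
  rw [List.map_nil, List.prod_nil, Module.End.one_apply, LinearMap.sub_apply,
    Module.End.one_apply, sub_eq_zero] at h3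
  rw [h3, Module.End.one_apply]

end

universe u

/-- inner automorphisms act unipotently in small representations -/
theorem inn_unip {K : Type u} [Field K] [IsAlgClosed K] {g N : ℕ} (hN : 2 ≤ N)
    (hg : N + 3 ≤ g) {β : Type*} [DecidableEq β] (n : ℕ) :
    ∀ (V : Type u) [AddCommGroup V] [Module K V] [FiniteDimensional K V]
      (ρ : MulAut (FreeGroup ((Fin g ⊕ Fin g) ⊕ β)) →* Module.End K V),
      finrank K V < 2 ^ (N - 2) → finrank K V ≤ n →
      ∀ l : List (FreeGroup ((Fin g ⊕ Fin g) ⊕ β)), n ≤ l.length →
        (l.map (fun w => ρ (MulAut.conj w) - 1)).prod = 0 := by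
  induction n with
  | zero =>
    intro V _ _ _ ρ _ h0 l _
    have hs : Subsingleton V := finrank_zero_iff.1 (Nat.le_zero.1 h0)
    ext v
    exact Subsingleton.elim _ _
  | succ n ih =>
    intro V _ _ _ ρ hdim hn l hl
    rcases subsingleton_or_nontrivial V with hs | hs
    · ext v
      exact Subsingleton.elim _ _
    obtain ⟨E0, hE0, hE1⟩ := inn_fix hN hg ρ hdim
    let E : Submodule K V :=
      { carrier := {v | ∀ w, ρ (MulAut.conj w) v = v}
        zero_mem' := fun _ => map_zero _
        add_mem' := by
          intro a b ha hb w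
          rw [map_add, ha w, hb w]
        smul_mem' := by
          intro c a ha w
          rw [map_smul, ha w] }
    have hEE : E0 ≤ E := fun v hv w => hE1 w v hv
    have hEne : E ≠ ⊥ := fun h => hE0 (le_bot_iff.1 (h ▸ hEE))
    have hEst : ∀ φ, ∀ v ∈ E, ρ φ v ∈ E := by
      intro φ v hv w
      have e : MulAut.conj w * φ = φ * MulAut.conj (φ⁻¹ w) := by
        have h1 := conj_aut φ (φ⁻¹ w)
        rw [MulAut.apply_inv_self] at h1
        rw [← h1]
        group
      rw [← Module.End.mul_apply, ← map_mul, e, map_mul, Module.End.mul_apply, hv]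
    have h1 : 0 < finrank K E := by
      rw [Nat.pos_iff_ne_zero]
      intro h0
      exact hEne (Submodule.finrank_eq_zero.1 h0)
    have h2 := Submodule.finrank_quotient_add_finrank E
    cases l with
    | nil => simp at hl
    | cons x l =>
      rw [List.length_cons] at hl
      have h3 := ih (V ⧸ E) (quo ρ E hEst) (by omega) (by omega) l (by omega)
      rw [List.map_cons, List.prod_cons]
      ext v
      have h4 := quo_prod ρ E hEst (fun w => MulAut.conj w) l v
      rw [h3, LinearMap.zero_apply] at h4
      have h5 : (l.map (fun w => ρ (MulAut.conj w) - 1)).prod v ∈ E :=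
        (Submodule.Quotient.mk_eq_zero E).1 h4.symm
      rw [Module.End.mul_apply, LinearMap.sub_apply, Module.End.one_apply, h5 x, sub_self,
        LinearMap.zero_apply]

end Pool.Agent.TH35.CH
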