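import Mathlib
import Pool.Agent.TH35.CH.Nil

set_option autoImplicit false

/-! Inner automorphisms in small representations of subgroups of `Aut(F_n)` containing the
transvections. -/

namespace Pool.Agent.TH35.CH

open Pool.Agent.H798R3.MG Pool.Agent.H29R2.MG Pool.Agent.TH35.MG Pool.Agent.Helper950.BG Module

section
variable {γ : Type*} [DecidableEq γ]

theorem trL_comm {u y z : γ} (hyu : y ≠ u) (hzy : z ≠ y) (hzu : z ≠ u) :
    trL u z hzu = trL u y hyu * trL y z hzy * (trL u y hyu)⁻¹ * (trL y z hzy)⁻¹ := by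
  rw [eq_mul_inv_iff_mul_eq, eq_mul_inv_iff_mul_eq]
  apply aut_ext
  intro x
  rw [MulAut.mul_apply, MulAut.mul_apply, MulAut.mul_apply]
  by_cases e1 : x = u
  · rw [e1, trL_self u y, map_mul, map_inv, trL_self y z, trL_ne y z hzy hyu.symm, map_mul,
      map_inv, map_mul, map_inv, trL_ne u z hzu hzu, trL_ne u z hzu hyu, trL_self u z,
      trL_self u y]
    group
  · by_cases e2 : x = y
    · rw [e2, trL_ne u y hyu hyu, trL_self y z, map_mul, map_inv, trL_ne u z hzu hzu,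
        trL_ne u z hzu hyu, map_mul, map_inv, trL_ne u y hyu hzu, trL_ne u y hyu hyu]
    · rw [trL_ne u y hyu e1, trL_ne y z hzy e2, trL_ne u z hzu e1, trL_ne u y hyu e1]

theorem trR_comm {u y z : γ} (hyu : y ≠ u) (hzy : z ≠ y) (hzu : z ≠ u) :
    trR u z hzu = (trR u y hyu)⁻¹ * trR y z hzy * ((trR u y hyu)⁻¹)⁻¹ * (trR y z hzy)⁻¹ := by
  rw [eq_mul_inv_iff_mul_eq, inv_inv, mul_assoc _ (trR y z hzy), eq_inv_mul_iff_mul_eq]
  apply aut_ext
  intro x
  rw [MulAut.mul_apply, MulAut.mul_apply, MulAut.mul_apply]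
  by_cases e1 : x = u
  · rw [e1, trR_ne y z hzy hyu.symm, trR_self u z, map_mul, trR_self u y, trR_ne u y hyu hzu,
      map_mul, trR_self y z, trR_ne y z hzy hyu.symm]
    group
  · by_cases e2 : x = y
    · rw [e2, trR_self y z, map_mul, trR_ne u z hzu hyu, trR_ne u z hzu hzu, map_mul,
        trR_ne u y hyu hyu, trR_ne u y hyu hzu, trR_self y z]
    · rw [trR_ne y z hzy e2, trR_ne u z hzu e1, trR_ne u y hyu e1, trR_ne y z hzy e2]

theorem tr_mem (h3 : ∀ u z : γ, ∃ y, y ≠ u ∧ y ≠ z) (k : ℕ) :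
    (∀ u z : γ, ∀ h : z ≠ u, trR u z h ∈ derivedSeries (MulAut (FreeGroup γ)) k) ∧
    (∀ u z : γ, ∀ h : z ≠ u, trL u z h ∈ derivedSeries (MulAut (FreeGroup γ)) k) := by
  induction k with
  | zero => exact ⟨fun _ _ _ => Subgroup.mem_top _, fun _ _ _ => Subgroup.mem_top _⟩
  | succ k ih =>
    constructor
    · intro u z h
      obtain ⟨y, hyu, hyz⟩ := h3 u z
      rw [trR_comm hyu hyz.symm h, ← commutatorElement_def, derivedSeries_succ]
      exact Subgroup.commutator_mem_commutator (inv_mem (ih.1 _ _ _)) (ih.1 _ _ _)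
    · intro u z h
      obtain ⟨y, hyu, hyz⟩ := h3 u z
      rw [trL_comm hyu hyz.symm h, ← commutatorElement_def, derivedSeries_succ]
      exact Subgroup.commutator_mem_commutator (ih.2 _ _ _) (ih.2 _ _ _)

theorem conj_mem (h3 : ∀ u z : γ, ∃ y, y ≠ u ∧ y ≠ z) (k : ℕ) (w : FreeGroup γ) :
    MulAut.conj w ∈ derivedSeries (MulAut (FreeGroup γ)) k := by
  have hof : ∀ z : γ, MulAut.conj (FreeGroup.of z) ∈ derivedSeries (MulAut (FreeGroup γ)) k := by
    intro z
    obtain ⟨u, hu, -⟩ := h3 z z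
    have h1 := (tr_mem h3 k).1 u z hu.symm
    have h2 := conj_aut (trR u z hu.symm) (FreeGroup.of u)
    rw [trR_self, map_mul] at h2
    have h4 : MulAut.conj (FreeGroup.of z) = ((MulAut.conj (FreeGroup.of u))⁻¹ *
        trR u z hu.symm * ((MulAut.conj (FreeGroup.of u))⁻¹)⁻¹) *
          (trR u z hu.symm)⁻¹ := by
      calc MulAut.conj (FreeGroup.of z) = (MulAut.conj (FreeGroup.of u))⁻¹ *
          (MulAut.conj (FreeGroup.of u) * MulAut.conj (FreeGroup.of z)) := by group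
        _ = _ := by rw [← h2]; group
    rw [h4]
    exact mul_mem ((derivedSeries_normal _ k).conj_mem _ h1 _) (inv_mem h1)
  induction w using FreeGroup.induction_on with
  | C1 => rw [map_one]; exact one_mem _
  | of x => exact hof x
  | inv_of x hx => rw [map_inv]; exact inv_mem hx
  | mul x y hx hy => rw [map_mul]; exact mul_mem hx hy

end

section
variable {g N : ℕ} {β : Type*} [DecidableEq β]

omit [DecidableEq β] in
theorem three (hg : 2 ≤ g) (u z : (Fin g ⊕ Fin g) ⊕ β) : ∃ y, y ≠ u ∧ y ≠ z := by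
  have h1 : (Sum.inl (Sum.inl ⟨0, by omega⟩) : (Fin g ⊕ Fin g) ⊕ β) ≠
      Sum.inl (Sum.inl ⟨1, by omega⟩) := by simp
  have h2 : (Sum.inl (Sum.inl ⟨0, by omega⟩) : (Fin g ⊕ Fin g) ⊕ β) ≠
      Sum.inl (Sum.inr ⟨0, by omega⟩) := by simp
  have h3 : (Sum.inl (Sum.inl ⟨1, by omega⟩) : (Fin g ⊕ Fin g) ⊕ β) ≠
      Sum.inl (Sum.inr ⟨0, by omega⟩) := by simp
  by_contra hcon
  push Not at hcon
  have a1 := hcon (Sum.inl (Sum.inl ⟨0, by omega⟩))
  have a2 := hcon (Sum.inl (Sum.inl ⟨1, by omega⟩))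
  have a3 := hcon (Sum.inl (Sum.inr ⟨0, by omega⟩))
  by_cases e1 : (Sum.inl (Sum.inl ⟨0, by omega⟩) : (Fin g ⊕ Fin g) ⊕ β) = u
  · have b2 := a2 (fun h => h1 (e1.trans h.symm))
    have b3 := a3 (fun h => h2 (e1.trans h.symm))
    exact h3 (b2.trans b3.symm)
  · have b1 := a1 e1
    by_cases e2 : (Sum.inl (Sum.inl ⟨1, by omega⟩) : (Fin g ⊕ Fin g) ⊕ β) = u
    · have b3 := a3 (fun h => h3 (e2.trans h.symm))
      exact h2 (b1.trans b3.symm)
    · have b2 := a2 e2
      exact h1 (b1.trans b2.symm)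

/-- the handle elements lie in all terms of the derived series -/
theorem hand_mem (c : Ctx g N (N + 2)) (k : ℕ) :
    (∀ i < N, fh g β (sA g i) ∈ derivedSeries (MulAut (FreeGroup ((Fin g ⊕ Fin g) ⊕ β))) k) ∧
    (∀ i < N, fh g β (sB g i) ∈ derivedSeries (MulAut (FreeGroup ((Fin g ⊕ Fin g) ⊕ β))) k) ∧
    (∀ i, i + 1 < N → fh g β (sT g i (i + 1)) ∈
      derivedSeries (MulAut (FreeGroup ((Fin g ⊕ Fin g) ⊕ β))) k) := by
  have c2 := c.h2
  have c3 := c.hg
  have r := inn_rel (β := β) c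
  have h3 := three (β := β) (show 2 ≤ g by omega)
  have hA : ∀ i < N, fh g β (sA g i) ∈
      derivedSeries (MulAut (FreeGroup ((Fin g ⊕ Fin g) ⊕ β))) k := by
    intro i hi
    have hig : i < g := by omega
    have hne : (Sum.inl (Sum.inl ⟨i, hig⟩) : (Fin g ⊕ Fin g) ⊕ β) ≠
      Sum.inl (Sum.inr ⟨i, hig⟩) := by simp
    have e : fh g β (sA g i) = trR (Sum.inl (Sum.inr ⟨i, hig⟩)) (Sum.inl (Sum.inl ⟨i, hig⟩))
        hne := by
      apply aut_ext
      rintro ((m | m) | b)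
      · rw [trR_ne _ _ _ (by simp), ← ga_of m.2, A_ga c hi m.2]
      · by_cases hm : (m : ℕ) = i
        · have hm' : m = ⟨i, hig⟩ := Fin.ext hm
          rw [hm', trR_self, ← gb_of hig, ← ga_of hig, A_gb' c hi]
        · rw [trR_ne _ _ _ (by
            intro h
            apply hm
            simp only [Sum.inl.injEq, Sum.inr.injEq] at h
            exact congrArg Fin.val h), ← gb_of m.2, A_gb c hi m.2 hm]
      · rw [fh_inr, trR_ne _ _ _ (by simp)]
    rw [e]
    exact (tr_mem h3 k).1 _ _ _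
  have hB : ∀ i < N, fh g β (sB g i) ∈
      derivedSeries (MulAut (FreeGroup ((Fin g ⊕ Fin g) ⊕ β))) k := by
    intro i hi
    have h1 := r.braidAB i hi
    have e : fh g β (sB g i) = (fh g β (sA g i) * fh g β (sB g i)) * fh g β (sA g i) *
        (fh g β (sA g i) * fh g β (sB g i))⁻¹ := by
      rw [eq_mul_inv_iff_mul_eq, ← mul_assoc]
      exact h1.symm
    rw [e]
    exact (derivedSeries_normal _ k).conj_mem _ (hA i hi) _
  refine ⟨hA, hB, ?_⟩
  intro i hi
  have h1 := r.braidTBi i hi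
  have e : fh g β (sT g i (i + 1)) = (fh g β (sB g i) * fh g β (sT g i (i + 1))) *
      fh g β (sB g i) * (fh g β (sB g i) * fh g β (sT g i (i + 1)))⁻¹ := by
    rw [eq_mul_inv_iff_mul_eq, ← mul_assoc]
    exact h1
  rw [e]
  exact (derivedSeries_normal _ k).conj_mem _ (hB i (by omega)) _

end

end Pool.Agent.TH35.CH
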