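import Mathlib
import Pool.Agent.TH35.CH.Gam

set_option autoImplicit false

/-! Inner automorphisms in small representations of subgroups of `Aut(F_n)` containing a term of
the derived series. -/

namespace Pool.Agent.TH35.CH

open Pool.Agent.H798R3.MG Pool.Agent.H29R2.MG Pool.Agent.TH35.MG Pool.Agent.Helper950.BG Module

universe u

section
variable {g N : ℕ} {β : Type*} [DecidableEq β]
  {Γ : Subgroup (MulAut (FreeGroup ((Fin g ⊕ Fin g) ⊕ β)))} {k : ℕ}

theorem mC (h2 : 2 ≤ g)
    (hΓ : derivedSeries (MulAut (FreeGroup ((Fin g ⊕ Fin g) ⊕ β))) k ≤ Γ)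
    (w : FreeGroup ((Fin g ⊕ Fin g) ⊕ β)) : MulAut.conj w ∈ Γ :=
  hΓ (conj_mem (three h2) k w)

/-- inner automorphisms as elements of `Γ` -/
noncomputable def cjG (h : ∀ w, MulAut.conj w ∈ Γ) :
    FreeGroup ((Fin g ⊕ Fin g) ⊕ β) →* Γ :=
  (MulAut.conj).codRestrict Γ h

/-- inner automorphisms have a common fixed vector in small representations -/
theorem inn_fixG {K V : Type u} [Field K] [IsAlgClosed K] [AddCommGroup V] [Module K V]
    [FiniteDimensional K V] [Nontrivial V] (hN : 2 ≤ N) (hg : N + 3 ≤ g)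
    (hΓ : derivedSeries (MulAut (FreeGroup ((Fin g ⊕ Fin g) ⊕ β))) k ≤ Γ)
    (hC : ∀ w, MulAut.conj w ∈ Γ)
    (ρ : Γ →* Module.End K V)
    (hdim : finrank K V < 2 ^ (N - 2)) :
    ∃ E : Submodule K V, E ≠ ⊥ ∧ ∀ w, ∀ v ∈ E, ρ (cjG hC w) v = v := by
  classical
  have c : Ctx g N (N + 2) := ⟨hN, le_refl _, by omega⟩
  have hg0 : 0 < g := by omega
  have r0 := inn_rel (β := β) c
  obtain ⟨mA0, mB0, mT0⟩ := hand_mem (β := β) c k
  have mA : ∀ i < N, fh g β (sA g i) ∈ Γ := fun i hi => hΓ (mA0 i hi)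
  have mB : ∀ i < N, fh g β (sB g i) ∈ Γ := fun i hi => hΓ (mB0 i hi)
  have mT : ∀ i, i + 1 < N → fh g β (sT g i (i + 1)) ∈ Γ := fun i hi => hΓ (mT0 i hi)
  have mR : ∀ u z : (Fin g ⊕ Fin g) ⊕ β, ∀ h : z ≠ u, trR u z h ∈ Γ := fun u z h =>
    hΓ ((tr_mem (three (by omega)) k).1 u z h)
  have mL : ∀ u z : (Fin g ⊕ Fin g) ⊕ β, ∀ h : z ≠ u, trL u z h ∈ Γ := fun u z h =>
    hΓ ((tr_mem (three (by omega)) k).2 u z h)
  let L : MulAut (FreeGroup ((Fin g ⊕ Fin g) ⊕ β)) → Γ :=
    fun x => if h : x ∈ Γ then ⟨x, h⟩ else 1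
  have hL : ∀ x ∈ Γ, (L x : MulAut (FreeGroup ((Fin g ⊕ Fin g) ⊕ β))) = x := by
    intro x hx
    simp only [L]
    rw [dif_pos hx]
  have hLc : ∀ w, (cjG hC w : MulAut (FreeGroup ((Fin g ⊕ Fin g) ⊕ β))) = MulAut.conj w :=
    fun _ => rfl
  have hcm : ∀ x y : Γ, Commute (x : MulAut (FreeGroup ((Fin g ⊕ Fin g) ⊕ β)))
      (y : MulAut (FreeGroup ((Fin g ⊕ Fin g) ⊕ β))) → Commute x y := by
    intro x y h
    exact Subtype.ext h.eq
  have r : HRel N (fun i => L (fh g β (sA g i))) (fun i => L (fh g β (sB g i)))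
      (fun i => cjG hC (ga g β i)) (fun i => cjG hC (gb g β i))
      (fun i => L (fh g β (sT g i (i + 1)))) 1 := by
    refine HRel.pull Γ.subtype Γ.subtype_injective ?_
    exact (r0.congr (fun i hi => hL _ (mA i hi)) (fun i hi => hL _ (mB i hi))
      (fun i hi => rfl) (fun i hi => rfl) (fun i hi => hL _ (mT i hi))).tau_eq (map_one _)
  have ea : FreeGroup.of (u0 g hg0 β) = ga g β 0 := (ga_of hg0).symm
  have eb : FreeGroup.of (v0 g hg0 β) = gb g β 0 := (gb_of hg0).symm
  have nu : ∀ {z : (Fin g ⊕ Fin g) ⊕ β}, Extra N z → z ≠ u0 g hg0 β := by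
    intro z hz h
    have := hz.1 _ h
    simp at this
    omega
  have nv : ∀ {z : (Fin g ⊕ Fin g) ⊕ β}, Extra N z → z ≠ v0 g hg0 β := by
    intro z hz h
    have := hz.2 _ h
    simp at this
    omega
  -- fixed generators
  have fR : ∀ {z : (Fin g ⊕ Fin g) ⊕ β} (h : z ≠ u0 g hg0 β) (x : (Fin g ⊕ Fin g) ⊕ β),
      x ≠ u0 g hg0 β → FreeGroup.of x ∈ fixS (trR (u0 g hg0 β) z h) :=
    fun h x hx => trR_ne _ _ _ hx
  have fL : ∀ {z : (Fin g ⊕ Fin g) ⊕ β} (h : z ≠ v0 g hg0 β) (x : (Fin g ⊕ Fin g) ⊕ β),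
      x ≠ v0 g hg0 β → FreeGroup.of x ∈ fixS (trL (v0 g hg0 β) z h) :=
    fun h x hx => trL_ne _ _ _ hx
  have fRa : ∀ {z : (Fin g ⊕ Fin g) ⊕ β} (h : z ≠ u0 g hg0 β) (l : ℕ), 1 ≤ l → l < g →
      ga g β l ∈ fixS (trR (u0 g hg0 β) z h) := by
    intro z h l h1 h2
    rw [ga_of h2]
    refine fR h _ ?_
    intro e
    simp only [u0, Sum.inl.injEq, Fin.mk.injEq] at e
    omega
  have fRb : ∀ {z : (Fin g ⊕ Fin g) ⊕ β} (h : z ≠ u0 g hg0 β) (l : ℕ), l < g →
      gb g β l ∈ fixS (trR (u0 g hg0 β) z h) := by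
    intro z h l h2
    rw [gb_of h2]
    refine fR h _ ?_
    intro e
    simp [u0] at e
  have fLa : ∀ {z : (Fin g ⊕ Fin g) ⊕ β} (h : z ≠ v0 g hg0 β) (l : ℕ), l < g →
      ga g β l ∈ fixS (trL (v0 g hg0 β) z h) := by
    intro z h l h2
    rw [ga_of h2]
    refine fL h _ ?_
    intro e
    simp [v0] at e
  let J : Set Γ := {x | ∃ z, ∃ h : Extra N z, x = L (trR (u0 g hg0 β) z (nu h))}
  obtain ⟨E, hE0, hE1, hE2⟩ := slot_J ρ r (by omega) J
    (by
      rintro x ⟨z, hz, rfl⟩ l h1 h2
      apply hcm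
      rw [hL _ (mR _ _ _), hL _ (mA l h2)]
      refine comm_trR _ _ _ _ ?_ (A_ex c h2 hz) ?_
      · rw [ea, A_ga c h2 hg0]
      · intro x hx
        exact A_into c h2 (fixS _) (fRa (nu hz) l h1 (by omega)) x (fR (nu hz) x hx))
    (by
      rintro x ⟨z, hz, rfl⟩ l h1 h2
      apply hcm
      rw [hL _ (mR _ _ _), hL _ (mB l h2)]
      refine comm_trR _ _ _ _ ?_ (B_ex c h2 hz) ?_
      · rw [ea, B_ga c h2 hg0 (by omega)]
      · intro x hx
        exact B_into c h2 (fixS _) (fRb (nu hz) l (by omega)) x (fR (nu hz) x hx))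
    (by
      rintro x ⟨z, hz, rfl⟩ l h1 h2
      apply hcm
      rw [hL _ (mR _ _ _), hLc]
      exact comm_fix (fRb (nu hz) l (by omega)))
    (by
      rintro x ⟨z, hz, rfl⟩ l h1 h2
      apply hcm
      rw [hL _ (mR _ _ _), hL _ (mT l h2)]
      refine comm_trR _ _ _ _ ?_ (T_ex c h2 hz) ?_
      · rw [ea, T_ga c h2 hg0 (by omega) (by omega)]
      · intro x hx
        exact T_into c h2 (fixS _) (fRa (nu hz) l h1 (by omega)) (fRb (nu hz) l (by omega))
          (fRa (nu hz) (l + 1) (by omega) (by omega)) x (fR (nu hz) x hx))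
    (by
      rintro x ⟨z, hz, rfl⟩
      refine ⟨(L (trL (v0 g hg0 β) z (nv hz)))⁻¹, ?_, ?_⟩
      · intro l h1 h2
        refine Commute.inv_left ?_
        apply hcm
        rw [hL _ (mL _ _ _), hL _ (mA l h2)]
        refine comm_trL _ _ _ _ ?_ (A_ex c h2 hz) ?_
        · rw [eb, A_gb c h2 hg0 (by omega)]
        · intro x hx
          exact A_into c h2 (fixS _) (fLa (nv hz) l (by omega)) x (fL (nv hz) x hx)
      · have key : trL (v0 g hg0 β) z (nv hz) * fh g β (sB g 0) =
            fh g β (sB g 0) * trL (v0 g hg0 β) z (nv hz) * trR (u0 g hg0 β) z (nu hz) := by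
          have hb0 : fh g β (sB g 0) (gb g β 0) = gb g β 0 := B_gb c (by omega) hg0
          have ha0 : fh g β (sB g 0) (ga g β 0) = ga g β 0 * (gb g β 0)⁻¹ := B_ga' c (by omega)
          have hz0 : fh g β (sB g 0) (FreeGroup.of z) = FreeGroup.of z := B_ex c (by omega) hz
          have la : trL (v0 g hg0 β) z (nv hz) (ga g β 0) = ga g β 0 := fLa (nv hz) 0 hg0
          have lb : trL (v0 g hg0 β) z (nv hz) (gb g β 0) = (FreeGroup.of z)⁻¹ * gb g β 0 := by
            rw [← eb]; exact trL_self _ _ _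
          have lz : trL (v0 g hg0 β) z (nv hz) (FreeGroup.of z) = FreeGroup.of z :=
            fL (nv hz) z (nv hz)
          have ra : trR (u0 g hg0 β) z (nu hz) (ga g β 0) = ga g β 0 * FreeGroup.of z := by
            rw [← ea]; exact trR_self _ _ _
          have rb : trR (u0 g hg0 β) z (nu hz) (gb g β 0) = gb g β 0 := fRb (nu hz) 0 hg0
          apply aut_ext
          intro x
          rw [MulAut.mul_apply, MulAut.mul_apply, MulAut.mul_apply]
          by_cases e1 : x = u0 g hg0 β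
          · rw [e1, ea, ha0, ra, map_mul, map_mul, map_mul, map_inv, la, lb, lz, ha0, hz0]
            group
          · by_cases e2 : x = v0 g hg0 β
            · rw [e2, eb, hb0, lb, rb, lb, map_mul, map_inv, hz0, hb0]
            · have rx : trR (u0 g hg0 β) z (nu hz) (FreeGroup.of x) = FreeGroup.of x :=
                fR (nu hz) x e1
              have lx : trL (v0 g hg0 β) z (nv hz) (FreeGroup.of x) = FreeGroup.of x :=
                fL (nv hz) x e2
              have bx : fh g β (sB g 0) (FreeGroup.of x) = FreeGroup.of x := by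
                rcases x with (m | m) | b
                · have hm : (m : ℕ) ≠ 0 := by
                    intro h
                    apply e1
                    unfold u0
                    congr 2
                    exact Fin.ext h
                  rw [← ga_of m.2, B_ga c (by omega) m.2 hm]
                · rw [← gb_of m.2, B_gb c (by omega) m.2]
                · rw [fh_inr]
              rw [bx, rx, lx, bx]
        apply Subtype.ext
        rw [inv_inv]
        show (L (trR (u0 g hg0 β) z (nu hz)) : MulAut (FreeGroup ((Fin g ⊕ Fin g) ⊕ β))) =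
          (L (trL (v0 g hg0 β) z (nv hz)) : MulAut (FreeGroup ((Fin g ⊕ Fin g) ⊕ β)))⁻¹ *
          (L (fh g β (sB g 0)) : MulAut (FreeGroup ((Fin g ⊕ Fin g) ⊕ β)))⁻¹ *
          (L (trL (v0 g hg0 β) z (nv hz)) : MulAut (FreeGroup ((Fin g ⊕ Fin g) ⊕ β))) *
          (L (fh g β (sB g 0)) : MulAut (FreeGroup ((Fin g ⊕ Fin g) ⊕ β)))
        rw [hL _ (mR _ _ _), hL _ (mL _ _ _), hL _ (mB 0 (by omega)),
          mul_assoc _ (trL (v0 g hg0 β) z (nv hz)), key]
        group)
    (hlev_dim r hN ρ hdim)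
  refine ⟨E, hE0, ?_⟩
  -- the group fixing `E`
  have hP : ∀ w, cjG hC w ∈ T4b.fixG ρ E := by
    have ha : ∀ i < N, cjG hC (ga g β i) ∈ T4b.fixG ρ E := fun i hi v hv =>
      hE1 _ (Subgroup.subset_closure (Or.inl ⟨i, hi, rfl⟩)) v hv
    have hb : ∀ i < N, cjG hC (gb g β i) ∈ T4b.fixG ρ E := fun i hi v hv =>
      hE1 _ (Subgroup.subset_closure (Or.inr ⟨i, hi, rfl⟩)) v hv
    have hex : ∀ z, Extra N z → cjG hC (FreeGroup.of z) ∈ T4b.fixG ρ E := by
      intro z hz
      have h1 : L (trR (u0 g hg0 β) z (nu hz)) ∈ T4b.fixG ρ E :=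
        fun v hv => hE2 _ ⟨z, hz, rfl⟩ v hv
      have h2 := conj_aut (trR (u0 g hg0 β) z (nu hz)) (ga g β 0)
      have h3 : trR (u0 g hg0 β) z (nu hz) (ga g β 0) = ga g β 0 * FreeGroup.of z := by
        rw [← ea]; exact trR_self _ _ _
      rw [h3, map_mul] at h2
      have h4 : cjG hC (FreeGroup.of z) = (cjG hC (ga g β 0))⁻¹ *
          (L (trR (u0 g hg0 β) z (nu hz)) * cjG hC (ga g β 0) *
            (L (trR (u0 g hg0 β) z (nu hz)))⁻¹) := by
        apply Subtype.ext
        show MulAut.conj (FreeGroup.of z) = (MulAut.conj (ga g β 0))⁻¹ *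
          ((L (trR (u0 g hg0 β) z (nu hz)) : MulAut (FreeGroup ((Fin g ⊕ Fin g) ⊕ β))) *
            MulAut.conj (ga g β 0) *
            (L (trR (u0 g hg0 β) z (nu hz)) : MulAut (FreeGroup ((Fin g ⊕ Fin g) ⊕ β)))⁻¹)
        rw [hL _ (mR _ _ _), h2]
        group
      rw [h4]
      have h5 := ha 0 (by omega)
      exact mul_mem (inv_mem h5) (mul_mem (mul_mem h1 h5) (inv_mem h1))
    have hgen : ∀ z : (Fin g ⊕ Fin g) ⊕ β, cjG hC (FreeGroup.of z) ∈ T4b.fixG ρ E := by
      intro z
      rcases z with (m | m) | b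
      · rcases Nat.lt_or_ge m N with h | h
        · rw [← ga_of m.2]
          exact ha m h
        · refine hex _ ⟨?_, ?_⟩
          · intro m' hm'
            simp only [Sum.inl.injEq] at hm'
            rwa [← hm']
          · intro m' hm'
            simp at hm'
      · rcases Nat.lt_or_ge m N with h | h
        · rw [← gb_of m.2]
          exact hb m h
        · refine hex _ ⟨?_, ?_⟩
          · intro m' hm'
            simp at hm'
          · intro m' hm'
            simp only [Sum.inl.injEq, Sum.inr.injEq] at hm'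
            rwa [← hm']
      · refine hex _ ⟨?_, ?_⟩
        · intro m' hm'
          simp at hm'
        · intro m' hm'
          simp at hm'
    intro w
    induction w using FreeGroup.induction_on with
    | C1 => rw [map_one]; exact one_mem _
    | of x => exact hgen x
    | inv_of x hx => rw [map_inv]; exact inv_mem hx
    | mul x y hx hy => rw [map_mul]; exact mul_mem hx hy
  exact fun w v hv => hP w v hv

end

/-- inner automorphisms act unipotently in small representations -/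
theorem inn_unipG {K : Type u} [Field K] [IsAlgClosed K] {g N : ℕ} (hN : 2 ≤ N)
    (hg : N + 3 ≤ g) {β : Type*} [DecidableEq β] {k : ℕ}
    {Γ : Subgroup (MulAut (FreeGroup ((Fin g ⊕ Fin g) ⊕ β)))}
    (hΓ : derivedSeries (MulAut (FreeGroup ((Fin g ⊕ Fin g) ⊕ β))) k ≤ Γ)
    (hC : ∀ w, MulAut.conj w ∈ Γ) (n : ℕ) :
    ∀ (V : Type u) [AddCommGroup V] [Module K V] [FiniteDimensional K V]
      (ρ : Γ →* Module.End K V),
      finrank K V < 2 ^ (N - 2) → finrank K V ≤ n →
      ∀ l : List (FreeGroup ((Fin g ⊕ Fin g) ⊕ β)), n ≤ l.length →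
        (l.map (fun w => ρ (cjG hC w) - 1)).prod = 0 := by
  induction n with
  | zero =>
    intro V _ _ _ ρ _ h0 l _
    have hs : Subsingleton V := finrank_zero_iff.1 (Nat.le_zero.1 h0)
    ext v
    exact Subsingleton.elim _ _
  | succ n ih =>
    intro V _ _ _ ρ hdim hn l hl
    rcases subsingleton_or_nontrivial V with hs | hs
    · ext v
      exact Subsingleton.elim _ _
    obtain ⟨E0, hE0, hE1⟩ := inn_fixG hN hg hΓ hC ρ hdim
    let E : Submodule K V :=
      { carrier := {v | ∀ w, ρ (cjG hC w) v = v}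
        zero_mem' := fun _ => map_zero _
        add_mem' := by
          intro a b ha hb w
          rw [map_add, ha w, hb w]
        smul_mem' := by
          intro c a ha w
          rw [map_smul, ha w] }
    have hEE : E0 ≤ E := fun v hv w => hE1 w v hv
    have hEne : E ≠ ⊥ := fun h => hE0 (le_bot_iff.1 (h ▸ hEE))
    have hEst : ∀ φ, ∀ v ∈ E, ρ φ v ∈ E := by
      intro φ v hv w
      have e : cjG hC w * φ = φ * cjG hC ((φ⁻¹ : MulAut _) w) := by
        apply Subtype.ext
        have h1 := conj_aut (φ : MulAut (FreeGroup ((Fin g ⊕ Fin g) ⊕ β)))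
          ((φ⁻¹ : MulAut (FreeGroup ((Fin g ⊕ Fin g) ⊕ β))) w)
        rw [MulAut.apply_inv_self] at h1
        show MulAut.conj w * (φ : MulAut (FreeGroup ((Fin g ⊕ Fin g) ⊕ β))) =
          φ * MulAut.conj ((φ⁻¹ : MulAut (FreeGroup ((Fin g ⊕ Fin g) ⊕ β))) w)
        rw [← h1]
        group
      rw [← Module.End.mul_apply, ← map_mul, e, map_mul, Module.End.mul_apply, hv]
    have h1 : 0 < finrank K E := by
      rw [Nat.pos_iff_ne_zero]
      intro h0
      exact hEne (Submodule.finrank_eq_zero.1 h0)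
    have h2 := Submodule.finrank_quotient_add_finrank E
    cases l with
    | nil => simp at hl
    | cons x l =>
      rw [List.length_cons] at hl
      have h3 := ih (V ⧸ E) (quo ρ E hEst) (by omega) (by omega) l (by omega)
      rw [List.map_cons, List.prod_cons]
      ext v
      have h4 := quo_prod ρ E hEst (fun w => cjG hC w) l v
      rw [h3, LinearMap.zero_apply] at h4
      have h5 : (l.map (fun w => ρ (cjG hC w) - 1)).prod v ∈ E :=
        (Submodule.Quotient.mk_eq_zero E).1 h4.symm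
      rw [Module.End.mul_apply, LinearMap.sub_apply, Module.End.one_apply, h5 x, sub_self,
        LinearMap.zero_apply]

end Pool.Agent.TH35.CH
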