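import Mathlib
import Pool.Agent.TH35.CH.Gam2
import Pool.Agent.TH35.MG.Thm

set_option autoImplicit false

/-! Transvections in small representations of `Aut(F_n)`. -/

namespace Pool.Agent.TH35.CH

open Pool.Agent.H798R3.MG Pool.Agent.H29R2.MG Pool.Agent.TH35.MG Pool.Agent.Helper950.BG Module

universe u

/-- a permutation taking two given distinct points to two given distinct points -/
theorem perm_two {δ : Type*} [DecidableEq δ] {u v i j : δ} (huv : u ≠ v) (hij : i ≠ j) :
    ∃ π : Equiv.Perm δ, π u = i ∧ π v = j := by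
  have h1 : (Equiv.swap u i) v ≠ i := by
    intro h
    apply huv
    have h2 : (Equiv.swap u i) u = i := Equiv.swap_apply_left u i
    exact (Equiv.swap u i).injective (h2.trans h.symm)
  refine ⟨(Equiv.swap u i).trans (Equiv.swap ((Equiv.swap u i) v) j), ?_, ?_⟩
  · rw [Equiv.trans_apply, Equiv.swap_apply_left, Equiv.swap_apply_of_ne_of_ne h1.symm hij]
  · rw [Equiv.trans_apply, Equiv.swap_apply_left]

/-- transvections of `F_n` -/
def TrV {n : ℕ} (τ : MulAut (FreeGroup (Fin n))) : Prop :=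
  ∃ i j : Fin n, i ≠ j ∧ τ (FreeGroup.of i) = FreeGroup.of i * FreeGroup.of j ∧
    ∀ k, k ≠ i → τ (FreeGroup.of k) = FreeGroup.of k

theorem trv_conj {n : ℕ} {τ τ' : MulAut (FreeGroup (Fin n))} (h : TrV τ) (h' : TrV τ') :
    ∃ φ : MulAut (FreeGroup (Fin n)), τ' = φ * τ * φ⁻¹ := by
  obtain ⟨i, j, hij, h1, h2⟩ := h
  obtain ⟨i', j', hij', h1', h2'⟩ := h'
  obtain ⟨π, hi, hj⟩ := perm_two hij hij'
  let φ : MulAut (FreeGroup (Fin n)) := FreeGroup.freeGroupCongr π
  have hφ : ∀ k, φ (FreeGroup.of k) = FreeGroup.of (π k) := fun k => by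
    show FreeGroup.map π (FreeGroup.of k) = _
    rw [FreeGroup.map.of]
  refine ⟨φ, ?_⟩
  rw [eq_mul_inv_iff_mul_eq]
  apply aut_ext
  intro k
  rw [MulAut.mul_apply, MulAut.mul_apply, hφ]
  by_cases hk : k = i
  · rw [hk, hi, h1', h1, map_mul, hφ, hφ, hi, hj]
  · have hk' : π k ≠ i' := fun h => hk (π.injective (h.trans hi.symm))
    rw [h2' _ hk', h2 k hk, hφ]

/-- transvections are unipotent in small representations -/
theorem trv_unip {n m d : ℕ} (hm : m + 5 ≤ n / 2) (hd : d < 2 ^ m)
    (K : Type u) [Field K] (f : MulAut (FreeGroup (Fin n)) →* Matrix.GeneralLinearGroup (Fin d) K)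
    {τ : MulAut (FreeGroup (Fin n))} (hτ : TrV τ) :
    ((f τ : Matrix (Fin d) (Fin d) K) - 1) ^ m = 0 := by
  rcases Nat.eq_zero_or_pos m with rfl | hm0
  · rw [pow_zero] at hd
    have : d = 0 := by omega
    subst this
    exact Subsingleton.elim _ _
  obtain ⟨i, j, hij, h1, h2⟩ := hτ
  have hg0 : 0 < n / 2 := by omega
  let γ := (Fin (n / 2) ⊕ Fin (n / 2)) ⊕ Fin (n - (n / 2 + n / 2))
  let e0 : γ ≃ Fin n :=
    Fintype.equivFinOfCardEq (by
      simp only [γ, Fintype.card_sum, Fintype.card_fin]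
      omega)
  let bz : γ := Sum.inl (Sum.inr ⟨0, hg0⟩)
  let az : γ := Sum.inl (Sum.inl ⟨0, hg0⟩)
  have hne : e0 bz ≠ e0 az := by
    intro h
    have h7 : (Sum.inr ⟨0, hg0⟩ : Fin (n / 2) ⊕ Fin (n / 2)) = Sum.inl ⟨0, hg0⟩ :=
      Sum.inl_injective (e0.injective h)
    exact Sum.inr_ne_inl h7
  obtain ⟨π, hi, hj⟩ := perm_two hne hij
  let e : γ ≃ Fin n := e0.trans π
  have hei : e bz = i := hi
  have hej : e az = j := hj
  let E : FreeGroup γ ≃* FreeGroup (Fin n) := FreeGroup.freeGroupCongr e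
  have hE : ∀ z, E (FreeGroup.of z) = FreeGroup.of (e z) := fun z => by
    show FreeGroup.map e (FreeGroup.of z) = _
    rw [FreeGroup.map.of]
  have c : Ctx (n / 2) (m + 2) (m + 2 + 2) := ⟨by omega, le_refl _, by omega⟩
  have hA : MulAut.congr E (fh (n / 2) (Fin (n - (n / 2 + n / 2))) (sA (n / 2) 0)) = τ := by
    apply aut_ext
    intro k
    obtain ⟨z, rfl⟩ := e.surjective k
    have h3 : MulAut.congr E (fh (n / 2) (Fin (n - (n / 2 + n / 2))) (sA (n / 2) 0))
        (FreeGroup.of (e z)) =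
        E (fh (n / 2) (Fin (n - (n / 2 + n / 2))) (sA (n / 2) 0) (FreeGroup.of z)) := by
      show E (fh (n / 2) (Fin (n - (n / 2 + n / 2))) (sA (n / 2) 0)
        (E.symm (FreeGroup.of (e z)))) = _
      rw [← hE z, MulEquiv.symm_apply_apply]
    rw [h3]
    by_cases hz : z = bz
    · rw [hz, hei, h1]
      have h4 : FreeGroup.of bz = gb (n / 2) (Fin (n - (n / 2 + n / 2))) 0 := (gb_of hg0).symm
      have h5 : ga (n / 2) (Fin (n - (n / 2 + n / 2))) 0 = FreeGroup.of az := ga_of hg0
      rw [h4, A_gb' c (by omega), h5, ← h4, map_mul, hE, hE, hei, hej]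
    · have hez : e z ≠ i := fun h => hz (e.injective (h.trans hei.symm))
      rw [h2 _ hez]
      have h6 : fh (n / 2) (Fin (n - (n / 2 + n / 2))) (sA (n / 2) 0) (FreeGroup.of z) =
          FreeGroup.of z := by
        rcases z with (q | q) | b
        · rw [← ga_of q.2, A_ga c (by omega) q.2]
        · have hq : (q : ℕ) ≠ 0 := by
            intro h
            apply hz
            show (Sum.inl (Sum.inr q) : γ) = Sum.inl (Sum.inr ⟨0, hg0⟩)
            congr 2
            exact Fin.ext h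
          rw [← gb_of q.2, A_gb c (by omega) q.2 hq]
        · rw [fh_inr]
      rw [h6, hE]
  let Ψ : MulAut (FreeGroup γ) →* MulAut (FreeGroup (Fin n)) := (MulAut.congr E).toMonoidHom
  have h1 := unip_zero (inn_rel (β := Fin (n - (n / 2 + n / 2))) c) (by omega)
    (((glEnd d K).comp f).comp Ψ) (by
      intro l hnd hl
      refine hlev_two (inn_rel c) _ l hnd hl ?_
      have hlen : l.length = m := by
        have h1 : l.toFinset = Finset.Ico 2 (m + 2) := by
          ext i
          rw [List.mem_toFinset, Finset.mem_Ico]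
          exact hl i
        rw [← List.toFinset_card_of_nodup hnd, h1, Nat.card_Ico]
        omega
      rw [hlen]
      simpa using hd)
  have h2 : ((glEnd d K).comp f).comp Ψ (fh (n / 2) (Fin (n - (n / 2 + n / 2))) (sA (n / 2) 0)) =
      phi' d K (f τ : Matrix (Fin d) (Fin d) K) := by
    rw [phi'_gl, MonoidHom.comp_apply, MonoidHom.comp_apply]
    congr 2
  apply phi'_inj d K
  rw [map_zero, map_pow, map_sub, map_one, ← h2]
  exact h1

/-- a unipotent matrix of finite order invertible in the field is trivial -/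
theorem unip_fin {d m k : ℕ} {K : Type u} [Field K] (U : Matrix.GeneralLinearGroup (Fin d) K)
    (h : ((U : Matrix (Fin d) (Fin d) K) - 1) ^ m = 0) (hk : (k : K) ≠ 0) (hU : U ^ k = 1) :
    U = 1 := by
  apply Units.ext
  refine semisimple_unip (m := m) _ ?_ h
  have h1 : minpoly K (U : Matrix (Fin d) (Fin d) K) ∣ (Polynomial.X ^ k - 1) := by
    apply minpoly.dvd
    rw [map_sub, map_pow, Polynomial.aeval_X, map_one, sub_eq_zero]
    have := congrArg (fun z : Matrix.GeneralLinearGroup (Fin d) K =>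
      (z : Matrix (Fin d) (Fin d) K)) hU
    simpa using this
  exact Squarefree.squarefree_of_dvd h1 (Polynomial.X_pow_sub_one_separable_iff.2 hk).squarefree

end Pool.Agent.TH35.CH
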