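import Mathlib
import Pool.Agent.TH35.MG.Hlev
import Pool.Agent.TH35.MG.Low

set_option autoImplicit false

/-! Representations of quadratic degree: independent transvections have product zero. -/

namespace Pool.Agent.TH35.CH

open Pool.Agent.H798R3.MG Pool.Agent.TH35.MG Pool.Agent.Helper950.BG Module

section
variable {K V G : Type*} [Field K] [AddCommGroup V] [Module K V] [Group G]

theorem inj_rho (ρ : G →* Module.End K V) {x : G} {v : V} (hv : ρ x v = 0) : v = 0 := by
  have h1 : ρ x⁻¹ (ρ x v) = v := by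
    rw [← Module.End.mul_apply, ← map_mul, inv_mul_cancel, map_one, Module.End.one_apply]
  rw [← h1, hv, map_zero]

/-- on a stable subspace with `(B-1)(A-1) = 0` the two braiding elements agree -/
theorem ring_step (ρ : G →* Module.End K V) {A B : G} (hbr : A * B * A = B * A * B)
    (W : Submodule K V) (hA : ∀ v ∈ W, ρ A v ∈ W) (hB : ∀ v ∈ W, ρ B v ∈ W)
    (h0 : ∀ v ∈ W, ρ B (ρ A v - v) = ρ A v - v) : ∀ v ∈ W, ρ A v = ρ B v := by
  have h1 : ∀ v ∈ W, ρ B (ρ A v) = ρ B v + ρ A v - v := by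
    intro v hv
    have h := h0 v hv
    rw [map_sub, sub_eq_iff_eq_add] at h
    rw [h]
    abel
  have h2 : ∀ v ∈ W, ρ A (ρ A v - v) = ρ B (ρ B v - v) := by
    intro v hv
    have e : ρ A (ρ B (ρ A v)) = ρ B (ρ A (ρ B v)) := by
      have := congrArg (fun z => ρ z v) hbr
      simpa only [map_mul, Module.End.mul_apply] using this
    rw [h1 v hv, h1 _ (hB v hv), map_sub, map_add] at e
    rw [map_sub, map_sub]
    have e2 : ρ A (ρ A v) - ρ A v + ρ A (ρ B v) = ρ B (ρ B v) - ρ B v + ρ A (ρ B v) := by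
      calc ρ A (ρ A v) - ρ A v + ρ A (ρ B v) = ρ A (ρ B v) + ρ A (ρ A v) - ρ A v := by abel
        _ = ρ B (ρ B v) + ρ A (ρ B v) - ρ B v := e
        _ = _ := by abel
    exact add_right_cancel e2
  have h3 : ∀ v ∈ W, ρ B (ρ B v - v) - (ρ B v - v) = 0 := by
    intro v hv
    -- `b (A a v) = 0`
    have e1 : ρ B (ρ A (ρ A v) - ρ A v) = ρ A (ρ A v) - ρ A v := h0 _ (hA v hv)
    rw [← map_sub, h2 v hv] at e1
    have e2 : ρ B (ρ B (ρ B v - v) - (ρ B v - v)) = 0 := by
      rw [map_sub, sub_eq_zero]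
      exact e1
    exact inj_rho ρ e2
  have h4 : ∀ v ∈ W, ρ A (ρ A v - v) - (ρ A v - v) = 0 := by
    intro v hv
    have hw : ρ A v - v ∈ W := W.sub_mem (hA v hv) hv
    have e1 := h2 _ hw
    rw [h0 v hv, sub_self, map_zero] at e1
    exact inj_rho ρ e1
  intro v hv
  have e1 := h2 v hv
  rw [sub_eq_zero.1 (h4 v hv), sub_eq_zero.1 (h3 v hv)] at e1
  exact sub_left_injective e1

end

section
variable {K V G : Type*} [Field K] [AddCommGroup V] [Module K V] [Group G]
  {N : ℕ} {A B al be T : ℕ → G} {tau : G}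

/-- killing a factor `B_p - 1` -/
theorem st_step (r : HRel N A B al be T tau) (ρ : G →* Module.End K V) {p : ℕ} (h2 : 2 ≤ p)
    (hp : p < N) (X : Module.End K V)
    (hX : ∀ x : G, (∀ l, 2 ≤ l → l < N → l ≠ p → Commute x (A l) ∧ Commute x (B l)) →
      Commute (ρ x) X) (h0 : (ρ (B p) - 1) * ((ρ (A p) - 1) * X) = 0) :
    (ρ (A p) - 1) * X = 0 := by
  have hst : ∀ x : G, (∀ l, 2 ≤ l → l < N → l ≠ p → Commute x (A l) ∧ Commute x (B l)) →
      ∀ v ∈ LinearMap.range X, ρ x v ∈ LinearMap.range X := by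
    rintro x hx v ⟨u, rfl⟩
    refine ⟨ρ x u, ?_⟩
    exact (LinearMap.congr_fun (hX x hx).eq u).symm
  have hA : ∀ v ∈ LinearMap.range X, ρ (A p) v ∈ LinearMap.range X :=
    hst (A p) fun l _ hl hlp => ⟨r.commAA p hp l hl, r.commAB p hp l hl (Ne.symm hlp)⟩
  have hB : ∀ v ∈ LinearMap.range X, ρ (B p) v ∈ LinearMap.range X :=
    hst (B p) fun l _ hl hlp => ⟨(r.commAB l hl p hp hlp).symm, r.commBB p hp l hl⟩
  have h1 : ∀ v ∈ LinearMap.range X, ρ (B p) (ρ (A p) v - v) = ρ (A p) v - v := by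
    rintro v ⟨u, rfl⟩
    have h := LinearMap.congr_fun h0 u
    simp only [Module.End.mul_apply, LinearMap.sub_apply, Module.End.one_apply,
      LinearMap.zero_apply] at h
    exact sub_eq_zero.1 h
  have h3 := blk_on r ρ h2 hp (LinearMap.range X) hst
    (ring_step ρ (r.braidAB p hp) _ hA hB h1)
  apply LinearMap.ext
  intro u
  rw [Module.End.mul_apply, LinearMap.sub_apply, Module.End.one_apply, LinearMap.zero_apply,
    sub_eq_zero]
  exact h3 _ ⟨u, rfl⟩

/-- conjugation by `w` permutes the handles -/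
def Cj (N : ℕ) (A B : ℕ → G) (w : G) (σ : Equiv.Perm ℕ) : Prop :=
  ∀ l, (l < N ↔ σ l < N) ∧ (l < N → w * A l = A (σ l) * w ∧ w * B l = B (σ l) * w)

omit [Group G] in
theorem Cj_mul [Group G] {w w' : G} {σ σ' : Equiv.Perm ℕ} (h : Cj N A B w σ)
    (h' : Cj N A B w' σ') : Cj N A B (w * w') (σ * σ') := by
  intro l
  refine ⟨(h' l).1.trans (h _).1, fun hl => ?_⟩
  obtain ⟨e1, e2⟩ := (h' l).2 hl
  obtain ⟨f1, f2⟩ := (h (σ' l)).2 ((h' l).1.1 hl)
  constructor
  · rw [mul_assoc, e1, ← mul_assoc, f1, mul_assoc]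
    rfl
  · rw [mul_assoc, e2, ← mul_assoc, f2, mul_assoc]
    rfl

theorem Cj_one : Cj N A B 1 1 := fun l => ⟨Iff.rfl, fun _ => by simp⟩

theorem Cj_adj (r : HRel N A B al be T tau) {i : ℕ} (hi : i + 1 < N) :
    Cj N A B (Ss A B T i) (Equiv.swap i (i + 1)) := by
  intro l
  by_cases h1 : l = i
  · subst h1
    rw [Equiv.swap_apply_left]
    exact ⟨⟨fun _ => hi, fun _ => by omega⟩, fun _ => ⟨r.sA l hi, r.sB l hi⟩⟩
  · by_cases h2 : l = i + 1
    · subst h2
      rw [Equiv.swap_apply_right]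
      exact ⟨⟨fun _ => by omega, fun _ => hi⟩, fun _ => ⟨r.sA' i hi, r.sB' i hi⟩⟩
    · rw [Equiv.swap_apply_of_ne_of_ne h1 h2]
      refine ⟨Iff.rfl, fun hl => ⟨?_, ?_⟩⟩
      · exact (Ss_comm (r.commAA i (by omega) l hl)
          (r.commAB l hl i (by omega) h1).symm (r.commTA i hi l hl)
          (r.commAB l hl (i + 1) hi h2).symm (r.commAA (i + 1) hi l hl)).eq
      · exact (Ss_comm (r.commAB i (by omega) l hl (Ne.symm h1)) (r.commBB i (by omega) l hl)
          (r.commTB i hi l hl h1 h2) (r.commBB (i + 1) hi l hl)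
          (r.commAB (i + 1) hi l hl (Ne.symm h2))).eq

theorem Cj_lt (r : HRel N A B al be T tau) (a k : ℕ) :
    a + k + 1 < N → ∃ w, Cj N A B w (Equiv.swap a (a + k + 1)) := by
  induction k with
  | zero => intro h; exact ⟨_, Cj_adj r h⟩
  | succ k ih =>
    intro h
    obtain ⟨w, hw⟩ := ih (by omega)
    have h1 := Cj_adj r (i := a + k + 1) (by omega)
    have h2 := Cj_mul (Cj_mul h1 hw) h1
    refine ⟨Ss A B T (a + k + 1) * w * Ss A B T (a + k + 1), ?_⟩
    have e : Equiv.swap a (a + (k + 1) + 1) = Equiv.swap (a + k + 1) (a + k + 1 + 1) *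
        Equiv.swap a (a + k + 1) * Equiv.swap (a + k + 1) (a + k + 1 + 1) := by
      ext l
      simp only [Equiv.Perm.mul_apply, Equiv.swap_apply_def]
      split_ifs <;> omega
    rw [e]
    exact h2

theorem Cj_swap (r : HRel N A B al be T tau) {a b : ℕ} (ha : a < N) (hb : b < N) :
    ∃ w, Cj N A B w (Equiv.swap a b) := by
  rcases lt_trichotomy a b with h | h | h
  · obtain ⟨k, rfl⟩ : ∃ k, b = a + k + 1 := ⟨b - a - 1, by omega⟩
    exact Cj_lt r a k hb
  · subst h
    rw [Equiv.swap_self]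
    exact ⟨1, Cj_one⟩
  · obtain ⟨k, rfl⟩ : ∃ k, a = b + k + 1 := ⟨a - b - 1, by omega⟩
    rw [Equiv.swap_comm]
    exact Cj_lt r b k ha

/-- moving two handles -/
theorem Cj_two (r : HRel N A B al be T tau) {c i j : ℕ} (hc : c + 1 < N) (hi : c ≤ i)
    (hiN : i < N) (hj : c ≤ j) (hjN : j < N) (hij : i ≠ j) :
    ∃ w σ, Cj N A B w σ ∧ σ c = i ∧ σ (c + 1) = j ∧ ∀ l, l < c → σ l = l := by
  obtain ⟨w1, h1⟩ := Cj_swap r (a := c) (b := i) (by omega) hiN
  have hv : (Equiv.swap c i) (c + 1) < N := (h1 (c + 1)).1.1 hc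
  have hvc : c ≤ (Equiv.swap c i) (c + 1) := by
    rw [Equiv.swap_apply_def]
    split_ifs <;> omega
  obtain ⟨w2, h2⟩ := Cj_swap r (a := (Equiv.swap c i) (c + 1)) (b := j) hv hjN
  have hvi : i ≠ (Equiv.swap c i) (c + 1) := by
    intro h
    have h3 : (Equiv.swap c i) c = (Equiv.swap c i) (c + 1) := by
      rw [Equiv.swap_apply_left]; exact h
    have := (Equiv.swap c i).injective h3
    omega
  refine ⟨w2 * w1, _, Cj_mul h2 h1, ?_, ?_, ?_⟩
  · rw [Equiv.Perm.mul_apply, Equiv.swap_apply_left, Equiv.swap_apply_of_ne_of_ne hvi hij]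
  · rw [Equiv.Perm.mul_apply, Equiv.swap_apply_left]
  · intro l hl
    have e1 : (Equiv.swap c i) l = l := Equiv.swap_apply_of_ne_of_ne (by omega) (by omega)
    rw [Equiv.Perm.mul_apply, e1, Equiv.swap_apply_of_ne_of_ne (by omega) (by omega)]

/-- `B_p = 1` where `A_p = 1` -/
theorem B_of_A (r : HRel N A B al be T tau) (ρ : G →* Module.End K V) {p : ℕ}
    (hp : p < N) (X : Module.End K V) (hA : Commute (ρ (A p)) X) (hB : Commute (ρ (B p)) X)
    (h0 : (ρ (A p) - 1) * X = 0) : (ρ (B p) - 1) * X = 0 := by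
  have e : ρ (B p) * (ρ (A p) * ρ (B p)) = ρ (A p) * ρ (B p) * ρ (A p) := by
    rw [← map_mul, ← map_mul, ← map_mul, ← mul_assoc, r.braidAB p hp]
  have hAX : ρ (A p) * X = X := by
    rw [sub_mul, one_mul, sub_eq_zero] at h0
    exact h0
  have hc : Commute (ρ (A p) * ρ (B p)) X := hA.mul_left hB
  have h1 : ρ (B p) * X * (ρ (A p) * ρ (B p)) = X * (ρ (A p) * ρ (B p)) := by
    rw [mul_assoc, ← hc.eq, ← mul_assoc, e, mul_assoc _ (ρ (A p)) X, hAX]
  have h2 : (ρ (A p) * ρ (B p)) * ρ ((A p * B p)⁻¹) = 1 := by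
    rw [← map_mul, ← map_mul, mul_inv_cancel, map_one]
  have h3 := congrArg (fun z => z * ρ ((A p * B p)⁻¹)) h1
  simp only [mul_assoc] at h3
  rw [mul_assoc] at h2
  rw [h2, mul_one] at h3
  rw [sub_mul, one_mul, h3, sub_self]

end

section
variable {K V G : Type*} [Field K] [AddCommGroup V] [Module K V] [FiniteDimensional K V]
  [Group G] {N : ℕ} {A B al be T : ℕ → G} {tau : G}

/-- many independent pairs of handles force quadratic dimension -/
theorem count (r : HRel N A B al be T tau) (ρ : G →* Module.End K V) {c q : ℕ} (hc2 : 2 ≤ c)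
    (hcN : c + 2 * q ≤ N) (hc3 : c + 2 < N) (X : Module.End K V)
    (hX : ∀ x : G, (∀ l, 2 ≤ l → l < c → Commute x (A l)) → Commute (ρ x) X)
    (hne : (ρ (A c) - 1) * ((ρ (A (c + 1)) - 1) * X) ≠ 0)
    (hz : (ρ (A (c + 2)) - 1) * ((ρ (A c) - 1) * ((ρ (A (c + 1)) - 1) * X)) = 0) :
    q * q ≤ finrank K V := by
  have cancel : ∀ (w : G) (Y : Module.End K V), Y * ρ w = 0 → Y = 0 := by
    intro w Y h
    have h1 : ρ w * ρ w⁻¹ = 1 := by rw [← map_mul, mul_inv_cancel, map_one]
    calc Y = Y * (ρ w * ρ w⁻¹) := by rw [h1, mul_one]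
      _ = (Y * ρ w) * ρ w⁻¹ := by rw [mul_assoc]
      _ = 0 := by rw [h, zero_mul]
  have mvA : ∀ {w : G} {x y : G}, w * x = y * w → ρ w * (ρ x - 1) = (ρ y - 1) * ρ w := by
    intro w x y h
    rw [mul_sub, sub_mul, ← map_mul, ← map_mul, h, mul_one, one_mul]
  have hXw : ∀ {w : G} {σ : Equiv.Perm ℕ}, Cj N A B w σ → (∀ l, l < c → σ l = l) →
      Commute (ρ w) X := by
    intro w σ hw hσ
    refine hX w fun l _ hl => ?_
    have h := ((hw l).2 (by omega)).1
    rw [hσ l hl] at h
    exact h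
  have sub1 : ∀ {x y : Module.End K V}, Commute x y → Commute (x - 1) y := fun h =>
    h.sub_left (Commute.one_left _)
  have sub2 : ∀ {x y : Module.End K V}, Commute x y → Commute x (y - 1) := fun h =>
    h.sub_right (Commute.one_right _)
  -- the base case
  have base : ∀ l, c + 2 ≤ l → l < N →
      (ρ (B l) - 1) * ((ρ (A c) - 1) * ((ρ (A (c + 1)) - 1) * X)) = 0 := by
    intro l hl hlN
    obtain ⟨w, hw⟩ := Cj_swap r (a := c + 2) (b := l) hc3 hlN
    have hs : ∀ m, m < c + 2 → (Equiv.swap (c + 2) l) m = m := fun m hm =>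
      Equiv.swap_apply_of_ne_of_ne (by omega) (by omega)
    have h1 := hXw hw fun m hm => hs m (by omega)
    have e1 := ((hw c).2 (by omega)).1
    rw [hs c (by omega)] at e1
    have e2 := ((hw (c + 1)).2 (by omega)).1
    rw [hs (c + 1) (by omega)] at e2
    have e3 := ((hw (c + 2)).2 (by omega)).1
    rw [Equiv.swap_apply_left] at e3
    have hAl : (ρ (A l) - 1) * ((ρ (A c) - 1) * ((ρ (A (c + 1)) - 1) * X)) = 0 := by
      apply cancel w
      have k1 := mvA e1
      have k2 := mvA e2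
      have k3 := mvA e3
      calc (ρ (A l) - 1) * ((ρ (A c) - 1) * ((ρ (A (c + 1)) - 1) * X)) * ρ w
          = (ρ (A l) - 1) * ((ρ (A c) - 1) * ((ρ (A (c + 1)) - 1) * (X * ρ w))) := by
            simp only [mul_assoc]
        _ = (ρ (A l) - 1) * ((ρ (A c) - 1) * (((ρ (A (c + 1)) - 1) * ρ w) * X)) := by
            rw [← h1.eq]; simp only [mul_assoc]
        _ = (ρ (A l) - 1) * (((ρ (A c) - 1) * ρ w) * ((ρ (A (c + 1)) - 1) * X)) := by
            rw [← k2]; simp only [mul_assoc]
        _ = ((ρ (A l) - 1) * ρ w) * ((ρ (A c) - 1) * ((ρ (A (c + 1)) - 1) * X)) := by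
            rw [← k1]; simp only [mul_assoc]
        _ = ρ w * ((ρ (A (c + 2)) - 1) * ((ρ (A c) - 1) * ((ρ (A (c + 1)) - 1) * X))) := by
            rw [← k3]; simp only [mul_assoc]
        _ = 0 := by rw [hz, mul_zero]
    refine B_of_A r ρ hlN _ ?_ ?_ hAl
    · refine (sub2 ((r.commAA l hlN c (by omega)).map ρ)).mul_right
        ((sub2 ((r.commAA l hlN (c + 1) (by omega)).map ρ)).mul_right
          (hX _ fun m _ hm => r.commAA l hlN m (by omega)))
    · refine (sub2 ((r.commAB c (by omega) l hlN (by omega)).symm.map ρ)).mul_right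
        ((sub2 ((r.commAB (c + 1) (by omega) l hlN (by omega)).symm.map ρ)).mul_right
          (hX _ fun m _ hm => (r.commAB m (by omega) l hlN (by omega)).symm))
  -- all pairs
  have pair : ∀ i j, c ≤ i → i < N → c ≤ j → j < N → i ≠ j →
      (ρ (A i) - 1) * ((ρ (A j) - 1) * X) ≠ 0 ∧
      ∀ l, c ≤ l → l < N → l ≠ i → l ≠ j →
        (ρ (B l) - 1) * ((ρ (A i) - 1) * ((ρ (A j) - 1) * X)) = 0 := by
    intro i j hi hiN hj hjN hij
    obtain ⟨w, σ, hw, s1, s2, s3⟩ := Cj_two r (c := c) (by omega) hi hiN hj hjN hij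
    have h1 := hXw hw s3
    have e1 := ((hw c).2 (by omega)).1
    rw [s1] at e1
    have e2 := ((hw (c + 1)).2 (by omega)).1
    rw [s2] at e2
    have k1 := mvA e1
    have k2 := mvA e2
    have key : (ρ (A i) - 1) * ((ρ (A j) - 1) * X) * ρ w =
        ρ w * ((ρ (A c) - 1) * ((ρ (A (c + 1)) - 1) * X)) := by
      calc (ρ (A i) - 1) * ((ρ (A j) - 1) * X) * ρ w
          = (ρ (A i) - 1) * ((ρ (A j) - 1) * (X * ρ w)) := by simp only [mul_assoc]
        _ = (ρ (A i) - 1) * (((ρ (A j) - 1) * ρ w) * X) := by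
            rw [← h1.eq]; simp only [mul_assoc]
        _ = ((ρ (A i) - 1) * ρ w) * ((ρ (A (c + 1)) - 1) * X) := by
            rw [← k2]; simp only [mul_assoc]
        _ = _ := by rw [← k1]; simp only [mul_assoc]
    constructor
    · intro h0
      rw [h0, zero_mul] at key
      apply hne
      have h5 : ρ w⁻¹ * ρ w = 1 := by rw [← map_mul, inv_mul_cancel, map_one]
      calc (ρ (A c) - 1) * ((ρ (A (c + 1)) - 1) * X)
          = (ρ w⁻¹ * ρ w) * ((ρ (A c) - 1) * ((ρ (A (c + 1)) - 1) * X)) := by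
            rw [h5, one_mul]
        _ = ρ w⁻¹ * (ρ w * ((ρ (A c) - 1) * ((ρ (A (c + 1)) - 1) * X))) := by
            rw [mul_assoc]
        _ = 0 := by rw [← key, mul_zero]
    · intro l hl hlN hli hlj
      have hσl : σ (σ.symm l) = l := Equiv.apply_symm_apply σ l
      have hl' : σ.symm l < N := (hw (σ.symm l)).1.2 (by rw [hσl]; exact hlN)
      have h6 : c + 2 ≤ σ.symm l := by
        by_contra hcon
        rcases Nat.lt_or_ge (σ.symm l) c with h | h
        · have := s3 _ h
          rw [hσl] at this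
          omega
        · rcases Nat.eq_or_lt_of_le h with h | h
          · rw [← h, s1] at hσl
            exact hli hσl.symm
          · have h7 : σ.symm l = c + 1 := by omega
            rw [h7, s2] at hσl
            exact hlj hσl.symm
      have e3 := ((hw (σ.symm l)).2 hl').2
      rw [hσl] at e3
      have k3 := mvA e3
      apply cancel w
      calc (ρ (B l) - 1) * ((ρ (A i) - 1) * ((ρ (A j) - 1) * X)) * ρ w
          = (ρ (B l) - 1) * (((ρ (A i) - 1) * ((ρ (A j) - 1) * X)) * ρ w) := by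
            simp only [mul_assoc]
        _ = ((ρ (B l) - 1) * ρ w) * ((ρ (A c) - 1) * ((ρ (A (c + 1)) - 1) * X)) := by
            rw [key]; simp only [mul_assoc]
        _ = ρ w * ((ρ (B (σ.symm l)) - 1) *
              ((ρ (A c) - 1) * ((ρ (A (c + 1)) - 1) * X))) := by
            rw [← k3]; simp only [mul_assoc]
        _ = 0 := by rw [base _ h6 hl', mul_zero]
  -- nonvanishing
  have nv : ∀ i j, c ≤ i → i < N → c ≤ j → j < N → i ≠ j →
      (ρ (B i) - 1) * ((ρ (B j) - 1) * ((ρ (A i) - 1) * ((ρ (A j) - 1) * X))) ≠ 0 := by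
    intro i j hi hiN hj hjN hij h0
    have cAB : Commute (ρ (A i) - 1) (ρ (B j) - 1) :=
      sub1 (sub2 ((r.commAB i hiN j hjN hij).map ρ))
    have cAA : Commute (ρ (A i) - 1) (ρ (A j) - 1) :=
      sub1 (sub2 ((r.commAA i hiN j hjN).map ρ))
    have h1 : (ρ (B i) - 1) * ((ρ (A i) - 1) * ((ρ (B j) - 1) * ((ρ (A j) - 1) * X))) = 0 := by
      rw [← h0]
      congr 1
      rw [← mul_assoc, cAB.eq, mul_assoc]
    have h2 := st_step r ρ (by omega) hiN _ (by
      intro x hx
      have hxj := hx j (by omega) hjN (Ne.symm hij)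
      exact (sub2 (hxj.2.map ρ)).mul_right ((sub2 (hxj.1.map ρ)).mul_right
        (hX x fun l hl1 hl2 => (hx l hl1 (by omega) (by omega)).1))) h1
    have h3 : (ρ (B j) - 1) * ((ρ (A j) - 1) * ((ρ (A i) - 1) * X)) = 0 := by
      rw [← h2, ← mul_assoc (ρ (A i) - 1), cAB.eq, mul_assoc]
      congr 1
      rw [← mul_assoc, ← cAA.eq, mul_assoc]
    have h4 := st_step r ρ (by omega) hjN _ (by
      intro x hx
      have hxi := hx i (by omega) hiN hij
      exact (sub2 (hxi.1.map ρ)).mul_right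
        (hX x fun l hl1 hl2 => (hx l hl1 (by omega) (by omega)).1)) h3
    apply (pair i j hi hiN hj hjN hij).1
    rw [← h4, ← mul_assoc, cAA.eq, mul_assoc]
  -- the vectors
  have hex : ∀ p : Fin q × Fin q, ∃ u : V,
      ((ρ (B (c + p.1)) - 1) * ((ρ (B (c + q + p.2)) - 1) * ((ρ (A (c + p.1)) - 1) *
        ((ρ (A (c + q + p.2)) - 1) * X))) : Module.End K V) u ≠ 0 := by
    intro p
    have h1 := p.1.2
    have h2 := p.2.2
    have h := nv (c + p.1) (c + q + p.2) (by omega) (by omega) (by omega) (by omega) (by omega)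
    by_contra hcon
    push Not at hcon
    exact h (LinearMap.ext hcon)
  choose u hu using hex
  have hli : LinearIndependent K (fun p : Fin q × Fin q =>
      ((ρ (A (c + p.1)) - 1) * ((ρ (A (c + q + p.2)) - 1) * X) : Module.End K V) (u p)) := by
    rw [linearIndependent_iff']
    intro s g hg p hp
    have h := congrArg ((ρ (B (c + p.1)) - 1) * (ρ (B (c + q + p.2)) - 1) : Module.End K V) hg
    rw [map_sum, map_zero, Finset.sum_eq_single_of_mem p hp] at h
    · rw [map_smul, smul_eq_zero] at h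
      refine h.resolve_right ?_
      have := hu p
      simpa only [Module.End.mul_apply] using this
    · intro p' _ hpp
      rw [map_smul]
      have a1 := p.1.2
      have a2 := p.2.2
      have b1 := p'.1.2
      have b2 := p'.2.2
      have hP := (pair (c + p'.1) (c + q + p'.2) (by omega) (by omega) (by omega) (by omega)
        (by omega)).2
      have hz2 : ((ρ (B (c + p.1)) - 1) * (ρ (B (c + q + p.2)) - 1) : Module.End K V)
          (((ρ (A (c + p'.1)) - 1) * ((ρ (A (c + q + p'.2)) - 1) * X) : Module.End K V)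
            (u p')) = 0 := by
        by_cases h2 : p.2 = p'.2
        · have h1 : p.1 ≠ p'.1 := fun h1 => hpp (Prod.ext h1.symm h2.symm)
          have h1' : (p.1 : ℕ) ≠ p'.1 := fun h => h1 (Fin.ext h)
          have cBB : Commute (ρ (B (c + p.1)) - 1) (ρ (B (c + q + p.2)) - 1) :=
            sub1 (sub2 ((r.commBB _ (by omega) _ (by omega)).map ρ))
          have h3 := hP (c + p.1) (by omega) (by omega) (by omega) (by omega)
          have h4 := LinearMap.congr_fun h3 (u p')
          rw [cBB.eq, Module.End.mul_apply]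
          rw [Module.End.mul_apply, LinearMap.zero_apply] at h4
          rw [h4, map_zero]
        · have h2' : (p.2 : ℕ) ≠ p'.2 := fun h => h2 (Fin.ext h)
          have h3 := hP (c + q + p.2) (by omega) (by omega) (by omega) (by omega)
          have h4 := LinearMap.congr_fun h3 (u p')
          rw [Module.End.mul_apply]
          rw [Module.End.mul_apply, LinearMap.zero_apply] at h4
          rw [h4, map_zero]
      rw [hz2, smul_zero]
  have hcard := hli.fintype_card_le_finrank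
  simpa using hcard

end

end Pool.Agent.TH35.CH
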