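import Mathlib
import Pool.Agent.TH35.CH.Quad

set_option autoImplicit false

/-! Quadratic unipotence of the transvections. -/

namespace Pool.Agent.TH35.CH

open Pool.Agent.H798R3.MG Pool.Agent.TH35.MG Pool.Agent.Helper950.BG Module

section
variable {K V G : Type*} [Field K] [AddCommGroup V] [Module K V] [Group G]
  {N : ℕ} {A B al be T : ℕ → G} {tau : G}

/-- the product of the first `h` operators `A_i - 1`, `2 ≤ i` -/
noncomputable def PP (ρ : G →* Module.End K V) (A : ℕ → G) (h : ℕ) : Module.End K V :=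
  ((List.range' 2 h).map (fun i => ρ (A i) - 1)).prod

theorem PP_zero (ρ : G →* Module.End K V) (A : ℕ → G) : PP ρ A 0 = 1 := by
  unfold PP
  rw [List.range'_zero, List.map_nil, List.prod_nil]

theorem PP_succ (ρ : G →* Module.End K V) (A : ℕ → G) (h : ℕ) :
    PP ρ A (h + 1) = PP ρ A h * (ρ (A (2 + h)) - 1) := by
  unfold PP
  rw [List.range'_1_concat, List.map_append, List.prod_append]
  simp

theorem PP_comm (ρ : G →* Module.End K V) (A : ℕ → G) (h : ℕ) (x : G)
    (hx : ∀ l, 2 ≤ l → l < 2 + h → Commute x (A l)) : Commute (ρ x) (PP ρ A h) := by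
  induction h with
  | zero => rw [PP_zero]; exact Commute.one_right _
  | succ h ih =>
    rw [PP_succ]
    exact (ih fun l h1 h2 => hx l h1 (by omega)).mul_right
      (((hx (2 + h) (by omega) (by omega)).map ρ).sub_right (Commute.one_right _))

theorem quad [IsAlgClosed K] [FiniteDimensional K V] (r : HRel N A B al be T tau)
    (ρ : G →* Module.End K V) {q k : ℕ} (hN : 2 * q + k ≤ N)
    (hq : finrank K V < q * q) (hk : finrank K V < 2 ^ k) :
    (ρ (A 0) - 1) ^ 2 = 0 ∧ (2 ≤ N → (ρ (A 0) - 1) * (ρ (A 1) - 1) = 0) := by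
  by_cases hV : Subsingleton V
  · exact ⟨LinearMap.ext fun v => Subsingleton.elim _ _,
      fun _ => LinearMap.ext fun v => Subsingleton.elim _ _⟩
  have hV' : 0 < finrank K V := by
    rw [finrank_pos_iff]
    exact not_subsingleton_iff_nontrivial.1 hV
  have hq2 : 2 ≤ q := by
    by_contra hcon
    have : q = 0 ∨ q = 1 := by omega
    rcases this with rfl | rfl <;> omega
  have hPk : PP ρ A k = 0 := by
    refine hlev_two (r.mono (M := k + 2) (by omega)) ρ _ List.nodup_range' ?_ ?_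
    · intro i
      rw [List.mem_range'_1]
      omega
    · rw [List.length_range']
      exact hk
  have hP2 : PP ρ A 2 = 0 := by
    by_contra hne2
    classical
    have hex : ∃ h, PP ρ A h = 0 := ⟨k, hPk⟩
    have h1 : PP ρ A (Nat.find hex) = 0 := Nat.find_spec hex
    have h2 : ∀ m, m < Nat.find hex → PP ρ A m ≠ 0 := fun m hm => Nat.find_min hex hm
    have h3 : Nat.find hex ≤ k := Nat.find_le hPk
    generalize Nat.find hex = h0 at h1 h2 h3
    have h4 : ∀ m, m ≤ 2 → PP ρ A m ≠ 0 := by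
      intro m hm h5
      apply hne2
      have h6 : ∀ j, PP ρ A (m + j) = 0 := by
        intro j
        induction j with
        | zero => exact h5
        | succ j ih => rw [← add_assoc, PP_succ, ih, zero_mul]
      have h7 := h6 (2 - m)
      rwa [show m + (2 - m) = 2 by omega] at h7
    have h5 : 3 ≤ h0 := by
      by_contra hcon
      exact h4 h0 (by omega) h1
    obtain ⟨t, rfl⟩ : ∃ t, h0 = t + 3 := ⟨h0 - 3, by omega⟩
    have hXc : ∀ x : G, (∀ l, 2 ≤ l → l < t + 2 → Commute x (A l)) →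
        Commute (ρ x) (PP ρ A t) := fun x hx =>
      PP_comm ρ A t x fun l h6 h7 => hx l h6 (by omega)
    have sb : ∀ {x y : Module.End K V}, Commute x y → Commute (x - 1) y := fun h =>
      h.sub_left (Commute.one_left _)
    have sb2 : ∀ {x y : Module.End K V}, Commute x y → Commute x (y - 1) := fun h =>
      h.sub_right (Commute.one_right _)
    have c1 : Commute (ρ (A (t + 2)) - 1) (PP ρ A t) :=
      sb (hXc _ fun l h6 h7 => r.commAA (t + 2) (by omega) l (by omega))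
    have c2 : Commute (ρ (A (t + 2 + 1)) - 1) (PP ρ A t) :=
      sb (hXc _ fun l h6 h7 => r.commAA (t + 2 + 1) (by omega) l (by omega))
    have c3 : Commute (ρ (A (t + 2 + 2)) - 1) (PP ρ A (t + 2)) :=
      sb (PP_comm ρ A (t + 2) _ fun l h6 h7 => r.commAA (t + 2 + 2) (by omega) l (by omega))
    have e2 : PP ρ A (t + 2) = (ρ (A (t + 2)) - 1) * ((ρ (A (t + 2 + 1)) - 1) * PP ρ A t) := by
      rw [show t + 2 = t + 1 + 1 from rfl, PP_succ, PP_succ, show 2 + t = t + 2 by omega,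
        show 2 + (t + 1) = t + 2 + 1 by omega]
      rw [c2.eq, ← mul_assoc, c1.eq]
    have e3 : PP ρ A (t + 3) = (ρ (A (t + 2 + 2)) - 1) *
        ((ρ (A (t + 2)) - 1) * ((ρ (A (t + 2 + 1)) - 1) * PP ρ A t)) := by
      rw [show t + 3 = t + 2 + 1 from rfl, PP_succ, show 2 + (t + 2) = t + 2 + 2 by omega,
        ← c3.eq, e2]
    have h8 := count r ρ (c := t + 2) (q := q) (by omega) (by omega) (by omega) (PP ρ A t) hXc
      (by rw [← e2]; exact h2 _ (by omega)) (by rw [← e3]; exact h1)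
    omega
  have r4 : HRel 4 A B al be T tau := r.mono (by omega)
  have h9 := unip_zero r4 (by omega) ρ (by
    intro l hnd hl
    have c23 : Commute (ρ (A 2) - 1) (ρ (A 3) - 1) :=
      ((((r4.commAA 2 (by omega) 3 (by omega)).map ρ).sub_left
        (Commute.one_left _))).sub_right (Commute.one_right _)
    have hP : (ρ (A 2) - 1) * (ρ (A 3) - 1) = 0 := by
      have h10 := hP2
      rw [show (2 : ℕ) = 0 + 1 + 1 from rfl, PP_succ, PP_succ, PP_zero, one_mul] at h10
      exact h10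
    have hperm : l.Perm [2, 3] := by
      refine (List.perm_ext_iff_of_nodup hnd (by decide)).2 fun i => ?_
      rw [hl i]
      simp only [List.mem_cons, List.not_mem_nil, or_false]
      omega
    have h11 : l = [2, 3] ∨ l = [3, 2] := by
      have hlen := hperm.length_eq
      match l, hlen, hnd, hl, hperm with
      | [a, b], _, hnd, hl, _ =>
        have ha := (hl a).1 (by simp)
        have hb := (hl b).1 (by simp)
        have hab : a ≠ b := by
          intro h
          simp [h] at hnd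
        have : (a = 2 ∧ b = 3) ∨ (a = 3 ∧ b = 2) := by omega
        rcases this with ⟨rfl, rfl⟩ | ⟨rfl, rfl⟩
        · exact Or.inl rfl
        · exact Or.inr rfl
    rcases h11 with rfl | rfl
    · simpa using hP
    · rw [c23.eq] at hP
      simpa using hP)
  refine ⟨h9, fun _ => ?_⟩
  have hP : (ρ (A 2) - 1) * (ρ (A 3) - 1) = 0 := by
    have h10 := hP2
    rw [show (2 : ℕ) = 0 + 1 + 1 from rfl, PP_succ, PP_succ, PP_zero, one_mul] at h10
    exact h10
  obtain ⟨w1, hw1⟩ := Cj_swap r (a := 2) (b := 0) (by omega) (by omega)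
  obtain ⟨w2, hw2⟩ := Cj_swap r (a := 3) (b := 1) (by omega) (by omega)
  have hw := Cj_mul hw2 hw1
  have k2 := ((hw 2).2 (by omega)).1
  have k3 := ((hw 3).2 (by omega)).1
  have s2 : (Equiv.swap 3 1 * Equiv.swap 2 0 : Equiv.Perm ℕ) 2 = 0 := by decide
  have s3 : (Equiv.swap 3 1 * Equiv.swap 2 0 : Equiv.Perm ℕ) 3 = 1 := by decide
  rw [s2] at k2
  rw [s3] at k3
  generalize w2 * w1 = w at k2 k3
  have e2 : (ρ (A 0) - 1) * ρ w = ρ w * (ρ (A 2) - 1) := by
    rw [mul_sub, sub_mul, ← map_mul, ← map_mul, k2, mul_one, one_mul]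
  have e3 : (ρ (A 1) - 1) * ρ w = ρ w * (ρ (A 3) - 1) := by
    rw [mul_sub, sub_mul, ← map_mul, ← map_mul, k3, mul_one, one_mul]
  have h1 : (ρ (A 0) - 1) * (ρ (A 1) - 1) * ρ w = 0 := by
    rw [mul_assoc, e3, ← mul_assoc, e2, mul_assoc, hP, mul_zero]
  have h2 : ρ w * ρ w⁻¹ = 1 := by rw [← map_mul, mul_inv_cancel, map_one]
  calc (ρ (A 0) - 1) * (ρ (A 1) - 1) = (ρ (A 0) - 1) * (ρ (A 1) - 1) * (ρ w * ρ w⁻¹) := by
        rw [h2, mul_one]
    _ = (ρ (A 0) - 1) * (ρ (A 1) - 1) * ρ w * ρ w⁻¹ := by rw [← mul_assoc]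
    _ = 0 := by rw [h1, zero_mul]

end

section
variable {M G δ : Type*} [Ring M] [Group G]

/-- if independent transvections have product zero, all transvections with the same target have -/
theorem same_target (ρ : G →* M) (R : δ → δ → G)
    (hrel : ∀ i l k, i ≠ l → i ≠ k → l ≠ k → R l k * R i l = R i l * R l k * R i k)
    (hsrc : ∀ i k j, i ≠ k → i ≠ j → k ≠ j → Commute (R i j) (R k j))
    (hdis : ∀ i j k l, i ≠ j → i ≠ k → i ≠ l → j ≠ k → j ≠ l → k ≠ l →
      (ρ (R i j) - 1) * (ρ (R k l) - 1) = 0)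
    (hsq : ∀ i j, i ≠ j → (ρ (R i j) - 1) * (ρ (R i j) - 1) = 0)
    {i l k m : δ} (h1 : i ≠ l) (h2 : i ≠ k) (h3 : l ≠ k) (h4 : m ≠ i) (h5 : m ≠ l)
    (h6 : m ≠ k) : (ρ (R i l) - 1) * (ρ (R i k) - 1) = 0 := by
  have inv : ∀ (w : G) (Y Z : M), ρ w * Y = ρ w * Z → Y = Z := by
    intro w Y Z h
    have h1 : ρ w⁻¹ * ρ w = 1 := by rw [← map_mul, inv_mul_cancel, map_one]
    have h2 := congrArg (fun z => ρ w⁻¹ * z) h
    simpa only [← mul_assoc, h1, one_mul] using h2
  have fx : ∀ {x : G} {Y : M}, (ρ x - 1) * Y = 0 → ρ x * Y = Y := by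
    intro x Y h
    rw [sub_mul, one_mul, sub_eq_zero] at h
    exact h
  have xf : ∀ {x : G} {Y : M}, ρ x * Y = Y → (ρ x - 1) * Y = 0 := by
    intro x Y h
    rw [sub_mul, one_mul, h, sub_self]
  -- same source
  have src : ∀ a c j e : δ, a ≠ c → a ≠ j → c ≠ j → e ≠ a → e ≠ c → e ≠ j →
      (ρ (R c j) - 1) * (ρ (R a j) - 1) = 0 := by
    intro a c j e hac haj hcj hea hec hej
    apply xf
    have k1 : Commute (ρ (R e j)) (ρ (R a j) - 1) :=
      (((hsrc e a j hea hej haj).map ρ).sub_right (Commute.one_right _))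
    have k2 : Commute (ρ (R c j)) (ρ (R a j) - 1) :=
      (((hsrc c a j hac.symm hcj haj).map ρ).sub_right (Commute.one_right _))
    have k3 : ρ (R c e) * (ρ (R a j) - 1) = ρ (R a j) - 1 :=
      fx (hdis c e a j hec.symm hac.symm hcj hea hej haj)
    have k4 := congrArg (fun z => ρ z * (ρ (R a j) - 1)) (hrel c e j hec.symm hcj hej)
    simp only [map_mul] at k4
    rw [mul_assoc, k3] at k4
    rw [mul_assoc (ρ (R c e) * ρ (R e j)), k2.eq, ← mul_assoc, mul_assoc (ρ (R c e)), k1.eq,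
      ← mul_assoc (ρ (R c e)), k3, ← k1.eq, mul_assoc, ← k2.eq] at k4
    exact (inv _ _ _ k4).symm
  have s1 := src i m l k h4.symm h1 h5 h2.symm h6.symm h3.symm
  -- `r_ml r_lk r_il = 0`
  have s2 : (ρ (R m l) - 1) * ((ρ (R l k) - 1) * (ρ (R i l) - 1)) = 0 := by
    have k1 : ρ (R m l) * (ρ (R i l) - 1) = ρ (R i l) - 1 := fx s1
    have k2 : ρ (R m k) * (ρ (R i l) - 1) = ρ (R i l) - 1 :=
      fx (hdis m k i l h6 h4 h5 h2.symm h3.symm h1)
    have k4 := congrArg (fun z => ρ z * (ρ (R i l) - 1)) (hrel m l k h5 h6 h3)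
    simp only [map_mul] at k4
    rw [mul_assoc, k1, mul_assoc (ρ (R m l) * ρ (R l k)), k2, mul_assoc] at k4
    have k5 : (ρ (R m l) - 1) * (ρ (R l k) * (ρ (R i l) - 1)) = 0 := xf k4.symm
    have e : (ρ (R m l) - 1) * ((ρ (R l k) - 1) * (ρ (R i l) - 1)) =
        (ρ (R m l) - 1) * (ρ (R l k) * (ρ (R i l) - 1)) -
          (ρ (R m l) - 1) * (ρ (R i l) - 1) := by
      rw [sub_mul (ρ (R l k)), one_mul, mul_sub]
    rw [e, k5, s1, sub_zero]
  -- `r_il r_lk r_il = 0`
  have s3 : (ρ (R i l) - 1) * ((ρ (R l k) - 1) * (ρ (R i l) - 1)) = 0 := by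
    apply xf
    have k1 : ρ (R m l) * ((ρ (R l k) - 1) * (ρ (R i l) - 1)) =
        (ρ (R l k) - 1) * (ρ (R i l) - 1) := fx s2
    have k2 : ρ (R i m) * ((ρ (R l k) - 1) * (ρ (R i l) - 1)) =
        (ρ (R l k) - 1) * (ρ (R i l) - 1) := by
      apply fx
      rw [← mul_assoc, hdis i m l k h4.symm h1 h2 h5 h6 h3, zero_mul]
    have k4 := congrArg (fun z => ρ z * ((ρ (R l k) - 1) * (ρ (R i l) - 1)))
      (hrel i m l h4.symm h1 h5)
    simp only [map_mul] at k4
    rw [mul_assoc, k2, k1] at k4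
    have k5 : ρ (R i m * R m l) * (ρ (R i l) * ((ρ (R l k) - 1) * (ρ (R i l) - 1))) =
        ρ (R i m * R m l) * ((ρ (R l k) - 1) * (ρ (R i l) - 1)) := by
      rw [map_mul, ← mul_assoc, ← k4, mul_assoc, k1, k2]
    exact inv _ _ _ k5
  have s4 := src i l k m h1 h2 h3 h4 h5 h6
  -- conclusion
  have k1 := congrArg (fun z => (ρ (R i l) - 1) * ρ z) (hrel i l k h1 h2 h3)
  simp only [map_mul] at k1
  have k2 : (ρ (R i l) - 1) * ρ (R i l) = ρ (R i l) - 1 := by
    have := hsq i l h1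
    rw [mul_sub, mul_one, sub_eq_zero] at this
    exact this
  have k3 : (ρ (R i l) - 1) * (ρ (R l k) * ρ (R i l)) =
      (ρ (R i l) - 1) * ρ (R l k) * ρ (R i k) := by
    rw [k1, mul_assoc (ρ (R i l)), ← mul_assoc (ρ (R i l) - 1), k2, mul_assoc]
  have k4 : (ρ (R i l) - 1) * ρ (R l k) * (ρ (R i l) - 1) = 0 := by
    have e : (ρ (R i l) - 1) * ρ (R l k) * (ρ (R i l) - 1) =
        (ρ (R i l) - 1) * ((ρ (R l k) - 1) * (ρ (R i l) - 1)) +
          (ρ (R i l) - 1) * (ρ (R i l) - 1) := by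
      rw [mul_assoc, sub_mul (ρ (R l k)), one_mul,
        mul_sub (ρ (R i l) - 1) (ρ (R l k) * (ρ (R i l) - 1)), sub_add_cancel]
    rw [e, s3, hsq i l h1, add_zero]
  have k5 : (ρ (R i l) - 1) * ρ (R l k) * (ρ (R i k) - 1) = 0 := by
    rw [mul_sub, ← k3, ← mul_assoc, ← mul_sub, k4]
  have k6 : ρ (R l k) * (ρ (R i k) - 1) = ρ (R i k) - 1 := fx s4
  rw [mul_assoc, k6] at k5
  exact k5

end

end Pool.Agent.TH35.CH
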