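import Mathlib
import Pool.Agent.TH35.CH.Trv
import Pool.Agent.TH35.CH.Quad2

set_option autoImplicit false

/-! Transvections in representations of quadratic degree. -/

namespace Pool.Agent.TH35.CH

open Pool.Agent.H798R3.MG Pool.Agent.H29R2.MG Pool.Agent.TH35.MG Pool.Agent.Helper950.BG Module

universe u

/-- a permutation taking four given distinct points to four given distinct points -/
theorem perm_four {δ : Type*} [DecidableEq δ] {u v a b i j k l : δ} (huv : u ≠ v) (hua : u ≠ a)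
    (hub : u ≠ b) (hva : v ≠ a) (hvb : v ≠ b) (hab : a ≠ b) (hij : i ≠ j) (hik : i ≠ k)
    (hil : i ≠ l) (hjk : j ≠ k) (hjl : j ≠ l) (hkl : k ≠ l) :
    ∃ π : Equiv.Perm δ, π u = i ∧ π v = j ∧ π a = k ∧ π b = l := by
  obtain ⟨π, h1, h2⟩ := perm_two huv hij
  have h3 : i ≠ π a := fun h => hua (π.injective (h1.trans h))
  have h4 : j ≠ π a := fun h => hva (π.injective (h2.trans h))
  let π2 : Equiv.Perm δ := π.trans (Equiv.swap (π a) k)
  have g1 : π2 u = i := by
    show Equiv.swap (π a) k (π u) = i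
    rw [h1, Equiv.swap_apply_of_ne_of_ne h3 hik]
  have g2 : π2 v = j := by
    show Equiv.swap (π a) k (π v) = j
    rw [h2, Equiv.swap_apply_of_ne_of_ne h4 hjk]
  have g3 : π2 a = k := by
    show Equiv.swap (π a) k (π a) = k
    rw [Equiv.swap_apply_left]
  have h5 : i ≠ π2 b := fun h => hub (π2.injective (g1.trans h))
  have h6 : j ≠ π2 b := fun h => hvb (π2.injective (g2.trans h))
  have h7 : k ≠ π2 b := fun h => hab (π2.injective (g3.trans h))
  refine ⟨π2.trans (Equiv.swap (π2 b) l), ?_, ?_, ?_, ?_⟩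
  · rw [Equiv.trans_apply, g1, Equiv.swap_apply_of_ne_of_ne h5 hil]
  · rw [Equiv.trans_apply, g2, Equiv.swap_apply_of_ne_of_ne h6 hjl]
  · rw [Equiv.trans_apply, g3, Equiv.swap_apply_of_ne_of_ne h7 hkl]
  · rw [Equiv.trans_apply, Equiv.swap_apply_left]

theorem congr_sA {n s N : ℕ} (c : Ctx (n / 2) N (N + 2)) (hs : s < N) (hsg : s < n / 2)
    (e : (Fin (n / 2) ⊕ Fin (n / 2)) ⊕ Fin (n - (n / 2 + n / 2)) ≃ Fin n) {i j : Fin n}
    (hei : e (Sum.inl (Sum.inr ⟨s, hsg⟩)) = i) (hej : e (Sum.inl (Sum.inl ⟨s, hsg⟩)) = j)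
    {τ : MulAut (FreeGroup (Fin n))} (h1 : τ (FreeGroup.of i) = FreeGroup.of i * FreeGroup.of j)
    (h2 : ∀ k, k ≠ i → τ (FreeGroup.of k) = FreeGroup.of k) :
    MulAut.congr (FreeGroup.freeGroupCongr e)
      (fh (n / 2) (Fin (n - (n / 2 + n / 2))) (sA (n / 2) s)) = τ := by
  have hE : ∀ z, FreeGroup.freeGroupCongr e (FreeGroup.of z) = FreeGroup.of (e z) := fun z => by
    show FreeGroup.map e (FreeGroup.of z) = _
    rw [FreeGroup.map.of]
  apply aut_ext
  intro k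
  obtain ⟨z, rfl⟩ := e.surjective k
  have h3 : MulAut.congr (FreeGroup.freeGroupCongr e)
      (fh (n / 2) (Fin (n - (n / 2 + n / 2))) (sA (n / 2) s))
      (FreeGroup.of (e z)) =
      FreeGroup.freeGroupCongr e
        (fh (n / 2) (Fin (n - (n / 2 + n / 2))) (sA (n / 2) s) (FreeGroup.of z)) := by
    show FreeGroup.freeGroupCongr e (fh (n / 2) (Fin (n - (n / 2 + n / 2))) (sA (n / 2) s)
      ((FreeGroup.freeGroupCongr e).symm (FreeGroup.of (e z)))) = _
    rw [← hE z, MulEquiv.symm_apply_apply]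
  rw [h3]
  by_cases hz : z = Sum.inl (Sum.inr ⟨s, hsg⟩)
  · rw [hz, hei, h1]
    have h4 : FreeGroup.of (Sum.inl (Sum.inr ⟨s, hsg⟩)) =
        gb (n / 2) (Fin (n - (n / 2 + n / 2))) s := (gb_of hsg).symm
    have h5 : ga (n / 2) (Fin (n - (n / 2 + n / 2))) s =
        FreeGroup.of (Sum.inl (Sum.inl ⟨s, hsg⟩)) := ga_of hsg
    rw [h4, A_gb' c hs, h5, ← h4, map_mul, hE, hE, hei, hej]
  · have hez : e z ≠ i := fun h => hz (e.injective (h.trans hei.symm))
    rw [h2 _ hez]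
    have h6 : fh (n / 2) (Fin (n - (n / 2 + n / 2))) (sA (n / 2) s) (FreeGroup.of z) =
        FreeGroup.of z := by
      rcases z with (q | q) | b
      · rw [← ga_of q.2, A_ga c hs q.2]
      · have hq : (q : ℕ) ≠ s := by
          intro h
          apply hz
          congr 2
          exact Fin.ext h
        rw [← gb_of q.2, A_gb c hs q.2 hq]
      · rw [fh_inr]
    rw [h6, hE]

/-- independent transvections in representations of quadratic degree -/
theorem trv_pair {n q k d : ℕ} (hm : 2 * q + k + 3 ≤ n / 2) (hd : d < q * q) (hd2 : d < 2 ^ k)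
    (K : Type u) [Field K] (f : MulAut (FreeGroup (Fin n)) →* Matrix.GeneralLinearGroup (Fin d) K)
    {τ τ' : MulAut (FreeGroup (Fin n))} {i j i' j' : Fin n} (hij : i ≠ j) (hii : i ≠ i')
    (hij' : i ≠ j') (hji : j ≠ i') (hjj : j ≠ j') (hij'' : i' ≠ j')
    (h1 : τ (FreeGroup.of i) = FreeGroup.of i * FreeGroup.of j)
    (h2 : ∀ k, k ≠ i → τ (FreeGroup.of k) = FreeGroup.of k)
    (h1' : τ' (FreeGroup.of i') = FreeGroup.of i' * FreeGroup.of j')
    (h2' : ∀ k, k ≠ i' → τ' (FreeGroup.of k) = FreeGroup.of k) :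
    (((glEnd d K).comp f) τ - 1) * (((glEnd d K).comp f) τ - 1) = 0 ∧
      (((glEnd d K).comp f) τ - 1) * (((glEnd d K).comp f) τ' - 1) = 0 := by
  have hq0 : 0 < q := by
    rcases Nat.eq_zero_or_pos q with h | h
    · rw [h] at hd
      omega
    · exact h
  have hg0 : 0 < n / 2 := by omega
  have hg1 : 1 < n / 2 := by omega
  let γ := (Fin (n / 2) ⊕ Fin (n / 2)) ⊕ Fin (n - (n / 2 + n / 2))
  let e0 : γ ≃ Fin n :=
    Fintype.equivFinOfCardEq (by
      simp only [γ, Fintype.card_sum, Fintype.card_fin]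
      omega)
  let b0 : γ := Sum.inl (Sum.inr ⟨0, hg0⟩)
  let a0 : γ := Sum.inl (Sum.inl ⟨0, hg0⟩)
  let b1 : γ := Sum.inl (Sum.inr ⟨1, hg1⟩)
  let a1 : γ := Sum.inl (Sum.inl ⟨1, hg1⟩)
  have n1 : b0 ≠ a0 := fun h => Sum.inr_ne_inl (Sum.inl_injective h)
  have n2 : b0 ≠ b1 := fun h =>
    absurd (Fin.mk.inj_iff.1 (Sum.inr_injective (Sum.inl_injective h))) (by omega)
  have n3 : b0 ≠ a1 := fun h => Sum.inr_ne_inl (Sum.inl_injective h)
  have n4 : a0 ≠ b1 := fun h => Sum.inl_ne_inr (Sum.inl_injective h)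
  have n5 : a0 ≠ a1 := fun h =>
    absurd (Fin.mk.inj_iff.1 (Sum.inl_injective (Sum.inl_injective h))) (by omega)
  have n6 : b1 ≠ a1 := fun h => Sum.inr_ne_inl (Sum.inl_injective h)
  obtain ⟨π, p1, p2, p3, p4⟩ := perm_four (e0.injective.ne n1) (e0.injective.ne n2)
    (e0.injective.ne n3) (e0.injective.ne n4) (e0.injective.ne n5) (e0.injective.ne n6)
    hij hii hij' hji hjj hij''
  let e : γ ≃ Fin n := e0.trans π
  have c : Ctx (n / 2) (2 * q + k) (2 * q + k + 2) := ⟨by omega, le_refl _, by omega⟩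
  have hA0 := congr_sA c (s := 0) (by omega) hg0 e p1 p2 h1 h2
  have hA1 := congr_sA c (s := 1) (by omega) hg1 e p3 p4 h1' h2'
  let Ψ : MulAut (FreeGroup γ) →* MulAut (FreeGroup (Fin n)) :=
    (MulAut.congr (FreeGroup.freeGroupCongr e)).toMonoidHom
  have key := quad (inn_rel (β := Fin (n - (n / 2 + n / 2))) c)
    (((glEnd d K).comp f).comp Ψ) (q := q) (k := k) le_rfl (by simpa using hd)
    (by simpa using hd2)
  have e0' : ((glEnd d K).comp f).comp Ψ
      (fh (n / 2) (Fin (n - (n / 2 + n / 2))) (sA (n / 2) 0)) = ((glEnd d K).comp f) τ := by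
    rw [← hA0]; rfl
  have e1' : ((glEnd d K).comp f).comp Ψ
      (fh (n / 2) (Fin (n - (n / 2 + n / 2))) (sA (n / 2) 1)) = ((glEnd d K).comp f) τ' := by
    rw [← hA1]; rfl
  obtain ⟨k1, k2⟩ := key
  have k2 := k2 (by omega)
  rw [e0', pow_two] at k1
  rw [e0', e1'] at k2
  exact ⟨k1, k2⟩

end Pool.Agent.TH35.CH
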