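import Mathlib
import Pool.Agent.TH35.CH.Gam2

set_option autoImplicit false

/-! Characteristic simple quotients of free groups have no small representations. -/

namespace Pool.Agent.TH35.CH

open Pool.Agent.H798R3.MG Pool.Agent.H29R2.MG Pool.Agent.TH35.MG Pool.Agent.Helper950.BG Module
open scoped commutatorElement

universe u

section
variable {F Q : Type*} [Group F] [Group Q] (p : F →* Q) (hp : Function.Surjective p)
  (hex : ∀ φ : MulAut F, ∃ ψ : MulAut Q, ∀ x, ψ (p x) = p (φ x))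

include hp in
/-- the action on a characteristic quotient -/
noncomputable def alp : MulAut F →* MulAut Q where
  toFun φ := (hex φ).choose
  map_one' := by
    apply MulEquiv.ext
    intro y
    obtain ⟨x, rfl⟩ := hp y
    rw [(hex 1).choose_spec x]
    rfl
  map_mul' φ ψ := by
    apply MulEquiv.ext
    intro y
    obtain ⟨x, rfl⟩ := hp y
    rw [(hex (φ * ψ)).choose_spec x, MulAut.mul_apply, MulAut.mul_apply,
      (hex ψ).choose_spec x, (hex φ).choose_spec (ψ x)]

theorem alp_apply (φ : MulAut F) (x : F) : alp p hp hex φ (p x) = p (φ x) :=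
  (hex φ).choose_spec x

theorem alp_conj (w : F) : alp p hp hex (MulAut.conj w) = MulAut.conj (p w) := by
  apply MulEquiv.ext
  intro y
  obtain ⟨x, rfl⟩ := hp y
  rw [alp_apply, MulAut.conj_apply, MulAut.conj_apply, map_mul, map_mul, map_inv]

end

section
variable {Q : Type*} [Group Q]

theorem simple_comm [IsSimpleGroup Q] (h : ¬ Function.Injective (MulAut.conj : Q →* MulAut Q)) :
    ∀ a b : Q, a * b = b * a := by
  rcases IsSimpleGroup.eq_bot_or_eq_top_of_normal (MulAut.conj : Q →* MulAut Q).ker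
    inferInstance with h1 | h1
  · exact absurd ((MonoidHom.ker_eq_bot_iff _).1 h1) h
  · intro a b
    have h2 : MulAut.conj a = 1 := by
      have h3 : a ∈ (MulAut.conj : Q →* MulAut Q).ker := h1 ▸ Subgroup.mem_top a
      exact h3
    have h3 : MulAut.conj a b = b := by rw [h2]; rfl
    rw [MulAut.conj_apply] at h3
    exact mul_inv_eq_iff_eq_mul.1 h3

theorem simple_lcs [IsSimpleGroup Q] (h : Function.Injective (MulAut.conj : Q →* MulAut Q))
    (d : ℕ) : (⊤ : Subgroup Q).lowerCentralSeries d = ⊤ := by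
  have hc : ⁅(⊤ : Subgroup Q), (⊤ : Subgroup Q)⁆ = ⊤ := by
    rcases IsSimpleGroup.eq_bot_or_eq_top_of_normal ⁅(⊤ : Subgroup Q), (⊤ : Subgroup Q)⁆
      inferInstance with h1 | h1
    · exfalso
      obtain ⟨a, ha⟩ := exists_ne (1 : Q)
      apply ha
      apply h
      rw [map_one]
      apply MulEquiv.ext
      intro b
      rw [MulAut.conj_apply, MulAut.one_apply]
      have h2 : ⁅a, b⁆ ∈ ⁅(⊤ : Subgroup Q), (⊤ : Subgroup Q)⁆ :=
        Subgroup.commutator_mem_commutator (Subgroup.mem_top _) (Subgroup.mem_top _)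
      rw [h1, Subgroup.mem_bot, commutatorElement_def] at h2
      exact mul_inv_eq_one.1 h2
    · exact h1
  induction d with
  | zero => rfl
  | succ d ih => rw [Subgroup.lowerCentralSeries_succ, ih, hc]

end

section
variable {γ : Type*} [DecidableEq γ] {Q : Type*} [Group Q]

/-- characteristic quotients of free groups are not simple abelian -/
theorem no_abelian [IsSimpleGroup Q] (h2 : ∀ z : γ, ∃ u, u ≠ z) (p : FreeGroup γ →* Q)
    (hp : Function.Surjective p)
    (hex : ∀ φ : MulAut (FreeGroup γ), ∃ ψ : MulAut Q, ∀ x, ψ (p x) = p (φ x)) :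
    Function.Injective (MulAut.conj : Q →* MulAut Q) := by
  by_contra hinj
  have hcomm := simple_comm hinj
  obtain ⟨z, hz⟩ : ∃ z, p (FreeGroup.of z) ≠ 1 := by
    by_contra hcon
    push Not at hcon
    have h1 : p = 1 := FreeGroup.ext_hom _ _ hcon
    obtain ⟨a, ha⟩ := exists_ne (1 : Q)
    obtain ⟨x, hx⟩ := hp a
    apply ha
    rw [← hx, h1]
    rfl
  obtain ⟨u, hu⟩ := h2 z
  obtain ⟨ψ, hψ⟩ := hex (trR u z hu.symm)
  have h3 : ψ (p (FreeGroup.of z)) = p (FreeGroup.of z) := by
    rw [hψ, trR_ne _ _ _ hu.symm]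
  have hn : (Subgroup.zpowers (p (FreeGroup.of z))).Normal := by
    constructor
    intro a ha b
    rw [hcomm b a, mul_assoc, mul_inv_cancel, mul_one]
    exact ha
  have h4 : Subgroup.zpowers (p (FreeGroup.of z)) = ⊤ := by
    rcases IsSimpleGroup.eq_bot_or_eq_top_of_normal _ hn with h | h
    · exact absurd (Subgroup.zpowers_eq_bot.1 h) hz
    · exact h
  have h5 : ∀ y, ψ y = y := by
    intro y
    have hy : y ∈ Subgroup.zpowers (p (FreeGroup.of z)) := h4 ▸ Subgroup.mem_top y
    obtain ⟨k, rfl⟩ := Subgroup.mem_zpowers_iff.1 hy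
    rw [map_zpow, h3]
  have h6 := hψ (FreeGroup.of u)
  rw [h5, trR_self, map_mul] at h6
  exact hz (left_eq_mul.1 h6)

end

section
variable {K : Type u} [Field K] {d g N : ℕ} {β : Type*} [DecidableEq β] {Q : Type*} [Group Q]
  (p : FreeGroup ((Fin g ⊕ Fin g) ⊕ β) →* Q) (hp : Function.Surjective p)
  (hex : ∀ φ : MulAut (FreeGroup ((Fin g ⊕ Fin g) ⊕ β)), ∃ ψ : MulAut Q,
    ∀ x, ψ (p x) = p (φ x))

omit [DecidableEq β] in
include hp in
theorem lcs_img (d : ℕ) (hl : (⊤ : Subgroup Q).lowerCentralSeries d = ⊤) (q : Q) :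
    ∃ x ∈ (⊤ : Subgroup (FreeGroup ((Fin g ⊕ Fin g) ⊕ β))).lowerCentralSeries d, p x = q := by
  have h1 := Subgroup.map_lowerCentralSeries
    (⊤ : Subgroup (FreeGroup ((Fin g ⊕ Fin g) ⊕ β))) p d
  rw [Subgroup.map_top_of_surjective p hp, hl] at h1
  have h2 : q ∈ ((⊤ : Subgroup (FreeGroup ((Fin g ⊕ Fin g) ⊕ β))).lowerCentralSeries d).map p :=
    h1 ▸ Subgroup.mem_top q
  exact h2

include hp hex in
/-- small representations of the automorphism group of a simple characteristic quotient kill the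
inner automorphisms -/
theorem aut_triv [IsSimpleGroup Q] (hN : 2 ≤ N) (hg : N + 3 ≤ g) (hd : d < 2 ^ (N - 2))
    (f : MulAut Q →* Matrix.GeneralLinearGroup (Fin d) K) (q : Q) : f (MulAut.conj q) = 1 := by
  have hinj := no_abelian (fun z => by
    obtain ⟨y, hy, -⟩ := three (β := β) (show 2 ≤ g by omega) z z
    exact ⟨y, hy⟩) p hp hex
  obtain ⟨x, hx, rfl⟩ := lcs_img p hp d (simple_lcs hinj d) q
  let ρ : MulAut (FreeGroup ((Fin g ⊕ Fin g) ⊕ β)) →*
      Module.End (AlgebraicClosure K) (Fin d → AlgebraicClosure K) :=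
    ((glEnd d K).comp f).comp (alp p hp hex)
  have h1 := lcs_unip (ρ.comp MulAut.conj) d (by
    intro l hl
    exact inn_unip hN hg d (Fin d → AlgebraicClosure K) ρ (by simpa using hd) (by simp) l
      (by omega)) x hx
  apply glEnd_inj d K
  rw [map_one, ← h1]
  show _ = glEnd d K (f (alp p hp hex (MulAut.conj x)))
  rw [alp_conj]

include hp hex in
/-- small representations of a simple characteristic quotient with solvable outer automorphism
group are trivial -/
theorem quo_triv [IsSimpleGroup Q] (hN : 2 ≤ N) (hg : N + 3 ≤ g) (hd : d < 2 ^ (N - 2))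
    {k : ℕ} (hO : derivedSeries (MulAut Q) k ≤ (MulAut.conj : Q →* MulAut Q).range)
    (f : Q →* Matrix.GeneralLinearGroup (Fin d) K) (q : Q) : f q = 1 := by
  have hinj := no_abelian (fun z => by
    obtain ⟨y, hy, -⟩ := three (β := β) (show 2 ≤ g by omega) z z
    exact ⟨y, hy⟩) p hp hex
  obtain ⟨x, hx, rfl⟩ := lcs_img p hp d (simple_lcs hinj d) q
  let Γ : Subgroup (MulAut (FreeGroup ((Fin g ⊕ Fin g) ⊕ β))) :=
    (MulAut.conj : Q →* MulAut Q).range.comap (alp p hp hex)
  have hΓ : derivedSeries (MulAut (FreeGroup ((Fin g ⊕ Fin g) ⊕ β))) k ≤ Γ := by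
    rw [← Subgroup.map_le_iff_le_comap]
    exact (map_derivedSeries_le_derivedSeries (alp p hp hex) k).trans hO
  have hC : ∀ w, MulAut.conj w ∈ Γ := mC (by omega) hΓ
  let b0 : Γ →* (MulAut.conj : Q →* MulAut Q).range :=
    ((alp p hp hex).comp Γ.subtype).codRestrict _ (fun x => x.2)
  let b : Γ →* Q := (MonoidHom.ofInjective hinj).symm.toMonoidHom.comp b0
  have hb : ∀ w, b (cjG hC w) = p w := by
    intro w
    show (MonoidHom.ofInjective hinj).symm (b0 (cjG hC w)) = p w
    rw [MulEquiv.symm_apply_eq]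
    apply Subtype.ext
    rw [MonoidHom.ofInjective_apply]
    exact alp_conj p hp hex w
  let ρ : Γ →* Module.End (AlgebraicClosure K) (Fin d → AlgebraicClosure K) :=
    ((glEnd d K).comp f).comp b
  have h1 := lcs_unip (ρ.comp (cjG hC)) d (by
    intro l hl
    exact inn_unipG hN hg hΓ hC d (Fin d → AlgebraicClosure K) ρ (by simpa using hd) (by simp) l
      (by omega)) x hx
  apply glEnd_inj d K
  rw [map_one, ← h1]
  show _ = glEnd d K (f (b (cjG hC x)))
  rw [hb]

end

/-- the two statements for `F_n` -/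
theorem simple_quo {n d : ℕ} (hd : d < 2 ^ (n / 2 - 5)) (Δ : Subgroup (FreeGroup (Fin n)))
    [hΔ : Δ.Characteristic] (hs : IsSimpleGroup (FreeGroup (Fin n) ⧸ Δ))
    (K : Type u) [Field K] :
    (∀ f : MulAut (FreeGroup (Fin n) ⧸ Δ) →* Matrix.GeneralLinearGroup (Fin d) K,
      ∀ q, f (MulAut.conj q) = 1) ∧
    ((∃ k, derivedSeries (MulAut (FreeGroup (Fin n) ⧸ Δ)) k ≤
        (MulAut.conj : (FreeGroup (Fin n) ⧸ Δ) →* MulAut (FreeGroup (Fin n) ⧸ Δ)).range) →
      ∀ f : (FreeGroup (Fin n) ⧸ Δ) →* Matrix.GeneralLinearGroup (Fin d) K, ∀ q, f q = 1) := by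
  rcases Nat.lt_or_ge (n / 2) 5 with h5 | h5
  · have h0 : n / 2 - 5 = 0 := by omega
    rw [h0, pow_zero] at hd
    have hd0 : d = 0 := by omega
    subst hd0
    exact ⟨fun f q => Subsingleton.elim _ _, fun _ f q => Subsingleton.elim _ _⟩
  · let e : ((Fin (n / 2) ⊕ Fin (n / 2)) ⊕ Fin (n - (n / 2 + n / 2))) ≃ Fin n :=
      Fintype.equivFinOfCardEq (by
        simp only [Fintype.card_sum, Fintype.card_fin]
        omega)
    let E := FreeGroup.freeGroupCongr e
    let p : FreeGroup ((Fin (n / 2) ⊕ Fin (n / 2)) ⊕ Fin (n - (n / 2 + n / 2))) →*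
        FreeGroup (Fin n) ⧸ Δ := (QuotientGroup.mk' Δ).comp E.toMonoidHom
    have hp : Function.Surjective p :=
      (QuotientGroup.mk'_surjective Δ).comp E.surjective
    have hex : ∀ φ : MulAut (FreeGroup ((Fin (n / 2) ⊕ Fin (n / 2)) ⊕
        Fin (n - (n / 2 + n / 2)))), ∃ ψ : MulAut (FreeGroup (Fin n) ⧸ Δ),
        ∀ x, ψ (p x) = p (φ x) := by
      intro φ
      have h1 : Δ.map ((E.symm.trans φ).trans E : FreeGroup (Fin n) ≃* FreeGroup (Fin n)) = Δ :=
        Subgroup.characteristic_iff_map_eq.1 hΔ _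
      refine ⟨QuotientGroup.congr Δ Δ ((E.symm.trans φ).trans E) h1, ?_⟩
      intro x
      show QuotientGroup.congr Δ Δ ((E.symm.trans φ).trans E) h1 (QuotientGroup.mk' Δ (E x)) =
        QuotientGroup.mk' Δ (E (φ x))
      rw [QuotientGroup.congr_mk']
      congr 1
      simp only [MulEquiv.trans_apply, MulEquiv.symm_apply_apply]
    have hd' : d < 2 ^ (n / 2 - 3 - 2) := by rwa [show n / 2 - 3 - 2 = n / 2 - 5 by omega]
    refine ⟨fun f q => aut_triv (N := n / 2 - 3) p hp hex (by omega) (by omega) hd' f q, ?_⟩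
    rintro ⟨k, hk⟩ f q
    exact quo_triv (N := n / 2 - 3) p hp hex (by omega) (by omega) hd' hk f q

end Pool.Agent.TH35.CH
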