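import Mathlib
import Pool.Agent.TH35.CH.Nil

set_option autoImplicit false

/-! Characteristic representations of small dimension are nilpotent. -/

namespace Pool.Agent.TH35.CH

open Module
open scoped commutatorElement

universe u

section
variable {K : Type u} [Field K] {F : Type*} [Group F] {d : ℕ}
  (ρ : F →* Matrix.GeneralLinearGroup (Fin d) K)

/-- the span of the image -/
def Sp : Submodule K (Matrix (Fin d) (Fin d) K) :=
  Submodule.span K (Set.range (fun x => (ρ x : Matrix (Fin d) (Fin d) K)))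

/-- conjugation by an invertible matrix -/
def cj (P : Matrix.GeneralLinearGroup (Fin d) K) :
    Matrix (Fin d) (Fin d) K →ₗ[K] Matrix (Fin d) (Fin d) K :=
  (LinearMap.mulLeft K (P : Matrix (Fin d) (Fin d) K)).comp
    (LinearMap.mulRight K ((P⁻¹ : Matrix.GeneralLinearGroup (Fin d) K) :
      Matrix (Fin d) (Fin d) K))

theorem cj_val (P Q : Matrix.GeneralLinearGroup (Fin d) K) :
    cj P (Q : Matrix (Fin d) (Fin d) K) =
      ((P * Q * P⁻¹ : Matrix.GeneralLinearGroup (Fin d) K) : Matrix (Fin d) (Fin d) K) := by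
  simp only [cj, LinearMap.comp_apply, LinearMap.mulLeft_apply, LinearMap.mulRight_apply,
    Units.val_mul, mul_assoc]

variable {ρ}

theorem lin_eq {f h : Matrix (Fin d) (Fin d) K →ₗ[K] Matrix (Fin d) (Fin d) K}
    (e : ∀ x, f (ρ x : Matrix (Fin d) (Fin d) K) = h (ρ x : Matrix (Fin d) (Fin d) K))
    (X : Matrix (Fin d) (Fin d) K) (hX : X ∈ Sp ρ) : f X = h X := by
  refine LinearMap.eqOn_span (s := Set.range (fun x => (ρ x : Matrix (Fin d) (Fin d) K))) ?_ hX
  rintro _ ⟨x, rfl⟩
  exact e x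

theorem cj_maps {P : Matrix.GeneralLinearGroup (Fin d) K} {σ : F → F}
    (h : ∀ x, ρ (σ x) = P * ρ x * P⁻¹) (X : Matrix (Fin d) (Fin d) K) (hX : X ∈ Sp ρ) :
    cj P X ∈ Sp ρ := by
  have h1 : Sp ρ ≤ (Sp ρ).comap (cj P) := by
    unfold Sp
    rw [Submodule.span_le]
    rintro _ ⟨x, rfl⟩
    show cj P (ρ x : Matrix (Fin d) (Fin d) K) ∈ Sp ρ
    rw [cj_val, ← h x]
    exact Submodule.subset_span ⟨σ x, rfl⟩
  exact h1 hX

variable (ρ)

/-- the action of the automorphism group on the span of the image of a characteristic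
representation -/
noncomputable def actV (hc : ∀ σ : MulAut F, ∃ P : Matrix.GeneralLinearGroup (Fin d) K,
    ∀ x, ρ (σ x) = P * ρ x * P⁻¹) : MulAut F →* Module.End K (Sp ρ) where
  toFun σ := (cj (hc σ).choose).restrict (cj_maps (hc σ).choose_spec)
  map_one' := by
    apply LinearMap.ext
    rintro ⟨X, hX⟩
    apply Subtype.ext
    show cj (hc 1).choose X = (LinearMap.id : Matrix (Fin d) (Fin d) K →ₗ[K] _) X
    refine lin_eq (ρ := ρ) ?_ X hX
    intro x
    rw [cj_val, ← (hc 1).choose_spec x]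
    rfl
  map_mul' σ τ := by
    apply LinearMap.ext
    rintro ⟨X, hX⟩
    apply Subtype.ext
    show cj (hc (σ * τ)).choose X = ((cj (hc σ).choose).comp (cj (hc τ).choose)) X
    refine lin_eq (ρ := ρ) ?_ X hX
    intro x
    rw [LinearMap.comp_apply, cj_val, cj_val, ← (hc (σ * τ)).choose_spec x,
      ← (hc τ).choose_spec x, cj_val, ← (hc σ).choose_spec (τ x)]
    rfl

theorem actV_conj (hc : ∀ σ : MulAut F, ∃ P : Matrix.GeneralLinearGroup (Fin d) K,
    ∀ x, ρ (σ x) = P * ρ x * P⁻¹) (w : F) (X : Sp ρ) :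
    (actV ρ hc (MulAut.conj w) X : Matrix (Fin d) (Fin d) K) = cj (ρ w) X := by
  show cj (hc (MulAut.conj w)).choose (X : Matrix (Fin d) (Fin d) K) = _
  refine lin_eq (ρ := ρ) ?_ X X.2
  intro x
  rw [cj_val, cj_val, ← (hc (MulAut.conj w)).choose_spec x, MulAut.conj_apply, map_mul, map_mul,
    map_inv]

end

section
variable {K : Type u} [Field K] [IsAlgClosed K] {d : ℕ}

theorem nil_closed {g N : ℕ} (hN : 2 ≤ N) (hg : N + 3 ≤ g) {β : Type*} [DecidableEq β]
    (ρ : FreeGroup ((Fin g ⊕ Fin g) ⊕ β) →* Matrix.GeneralLinearGroup (Fin d) K)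
    (hc : ∀ σ : MulAut (FreeGroup ((Fin g ⊕ Fin g) ⊕ β)),
      ∃ P : Matrix.GeneralLinearGroup (Fin d) K, ∀ x, ρ (σ x) = P * ρ x * P⁻¹)
    (hd : d ^ 2 < 2 ^ (N - 2)) :
    (⊤ : Subgroup (FreeGroup ((Fin g ⊕ Fin g) ⊕ β))).lowerCentralSeries (d ^ 2 + 1) ≤
      ρ.ker := by
  have hfin : finrank K (Sp ρ) ≤ d ^ 2 := by
    have h1 := Submodule.finrank_le (Sp ρ)
    rw [Module.finrank_matrix] at h1
    simp only [Fintype.card_fin, Module.finrank_self, mul_one] at h1
    rwa [pow_two]
  let U : FreeGroup ((Fin g ⊕ Fin g) ⊕ β) →* Module.End K (Sp ρ) :=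
    (actV ρ hc).comp MulAut.conj
  have hprod : ∀ l : List (FreeGroup ((Fin g ⊕ Fin g) ⊕ β)), l.length = d ^ 2 + 1 →
      (l.map (fun w => U w - 1)).prod = 0 := by
    intro l hl
    exact inn_unip hN hg (d ^ 2) (Sp ρ) (actV ρ hc) (lt_of_le_of_lt hfin hd) hfin l (by omega)
  have h1 := lcs_unip U (d ^ 2) hprod
  rw [Subgroup.lowerCentralSeries_succ, Subgroup.commutator_le]
  intro x hx y _
  have h2 := h1 x hx
  rw [MonoidHom.mem_ker, commutatorElement_def, map_mul, map_mul, map_mul, map_inv, map_inv]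
  have h3 : cj (ρ x) (ρ y : Matrix (Fin d) (Fin d) K) = (ρ y : Matrix (Fin d) (Fin d) K) := by
    have h4 := actV_conj ρ hc x ⟨(ρ y : Matrix (Fin d) (Fin d) K),
      Submodule.subset_span ⟨y, rfl⟩⟩
    rw [← h4]
    have h5 : actV ρ hc (MulAut.conj x) = 1 := h2
    rw [h5]
    rfl
  rw [cj_val] at h3
  have h6 : ρ x * ρ y * (ρ x)⁻¹ = ρ y := Units.ext h3
  rw [h6, mul_inv_cancel]

end

/-- Characteristic representations of small dimension have nilpotent image. -/
theorem char_nil {K : Type u} [Field K] {n d : ℕ} (hd : d ^ 2 < 2 ^ (n / 2 - 5))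
    (ρ : FreeGroup (Fin n) →* Matrix.GeneralLinearGroup (Fin d) K)
    (hc : ∀ σ : FreeGroup (Fin n) ≃* FreeGroup (Fin n),
      ∃ P : Matrix.GeneralLinearGroup (Fin d) K, ∀ x, ρ (σ x) = P * ρ x * P⁻¹) :
    (ρ.range).lowerCentralSeries (d ^ 2 + 1) = ⊥ := by
  have key : (⊤ : Subgroup (FreeGroup (Fin n))).lowerCentralSeries (d ^ 2 + 1) ≤ ρ.ker := by
    rcases Nat.lt_or_ge (n / 2) 5 with h5 | h5
    · have h0 : n / 2 - 5 = 0 := by omega
      rw [h0, pow_zero] at hd
      have hd0 : d = 0 := by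
        by_contra h
        have := Nat.one_le_pow 2 d (Nat.pos_of_ne_zero h)
        omega
      subst hd0
      intro x _
      rw [MonoidHom.mem_ker]
      exact Subsingleton.elim _ _
    · let e : ((Fin (n / 2) ⊕ Fin (n / 2)) ⊕ Fin (n - (n / 2 + n / 2))) ≃ Fin n :=
        Fintype.equivFinOfCardEq (by
          simp only [Fintype.card_sum, Fintype.card_fin]
          omega)
      let E := FreeGroup.freeGroupCongr e
      let m : Matrix.GeneralLinearGroup (Fin d) K →*
          Matrix.GeneralLinearGroup (Fin d) (AlgebraicClosure K) :=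
        Matrix.GeneralLinearGroup.map (algebraMap K (AlgebraicClosure K))
      have hm : Function.Injective m := by
        intro a b h
        apply Units.ext
        ext i j
        have h2 := congrArg (fun z : Matrix.GeneralLinearGroup (Fin d) (AlgebraicClosure K) =>
          (z : Matrix (Fin d) (Fin d) (AlgebraicClosure K)) i j) h
        exact (algebraMap K (AlgebraicClosure K)).injective h2
      have h1 := nil_closed (K := AlgebraicClosure K) (g := n / 2) (N := n / 2 - 3)
        (by omega) (by omega) ((m.comp ρ).comp E.toMonoidHom) (by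
          intro σ
          obtain ⟨P, hP⟩ := hc ((E.symm.trans σ).trans E)
          refine ⟨m P, ?_⟩
          intro x
          have h2 := hP (E x)
          have h3 : ((E.symm.trans σ).trans E) (E x) = E (σ x) := by
            simp only [MulEquiv.trans_apply, MulEquiv.symm_apply_apply]
          rw [h3] at h2
          have h4 := congrArg m h2
          rw [map_mul, map_mul, map_inv] at h4
          exact h4) (by rwa [show n / 2 - 3 - 2 = n / 2 - 5 by omega])
      intro x hx
      have h2 : E.symm x ∈ (⊤ : Subgroup (FreeGroup ((Fin (n / 2) ⊕ Fin (n / 2)) ⊕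
          Fin (n - (n / 2 + n / 2))))).lowerCentralSeries (d ^ 2 + 1) := by
        have h3 := Subgroup.map_lowerCentralSeries (⊤ : Subgroup (FreeGroup (Fin n)))
          E.symm.toMonoidHom (d ^ 2 + 1)
        have h6 : (⊤ : Subgroup (FreeGroup (Fin n))).map E.symm.toMonoidHom = ⊤ := by
          rw [eq_top_iff]
          intro y _
          exact ⟨E y, Subgroup.mem_top _, MulEquiv.symm_apply_apply E y⟩
        rw [h6] at h3
        rw [← h3]
        exact ⟨x, hx, rfl⟩
      have h4 := h1 h2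
      rw [MonoidHom.mem_ker] at h4 ⊢
      apply hm
      rw [map_one]
      have h5 : ((m.comp ρ).comp E.toMonoidHom) (E.symm x) = m (ρ x) := by
        show m (ρ (E (E.symm x))) = _
        rw [MulEquiv.apply_symm_apply]
      rw [← h5]
      exact h4
  rw [MonoidHom.range_eq_map, ← Subgroup.map_lowerCentralSeries, Subgroup.map_eq_bot_iff]
  exact key

end Pool.Agent.TH35.CH
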